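import Pool.Agent.W353.AT.TDefs

/-!
# The defects of Tate's conjecture over all number fields as a function on Artin representations:
definitions

`X` is a smooth projective variety over a number field `K`, of dimension `d`, and `m` an integer,
`0 ≤ m ≤ d`; `χ` is an Artin representation of `K`, and `F ⊇ K` a number field in the algebraic closure.
-/

set_option autoImplicit false

namespace Pool.Agent.W353.SP

open NumberField IsDedekindDomain Filter Topology Polynomial
open Pool.Agent.W353.EH (size)
open Pool.Agent.W353.TD (rank)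
open Pool.Agent.W353.AT (IsArtin IsTwistedSystem twistRank fixedDim)

/-- A real number `δ F` for every number field `F ⊇ K` and a real number `y χ` for every complex
representation `χ` of the absolute Galois group of `K` satisfy:
* `y χ = y χ'` for equivalent Artin representations;
* `∑ y(χ_k)² ≤ s²` for all finite families of pairwise inequivalent irreducible Artin representations;
* for every number field `F ⊇ K` there are finitely many pairwise inequivalent irreducible Artin
  representations `χ_k` such that all irreducible Artin representations with non-zero vectors fixed by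
  `Gal(K̄/F)` are among them, up to equivalence, and `δ F = ∑ y(χ_k) dim χ_k^{Gal(K̄/F)}`;
* for every `c` and `η > 0` there is a finite Galois extension `M` of `K` such that
  `|δ F - δ (F ∩ M)| < η` for all number fields `F ⊇ K` of degree at most `c`. -/
def Spectrum (K : Type) [Field K] (s : ℕ) (δ : IntermediateField K (AlgebraicClosure K) → ℝ)
    (y : ∀ n : ℕ, Representation ℂ Gal(AlgebraicClosure K/K) (Fin n → ℂ) → ℝ) : Prop :=
  (∀ (n n' : ℕ) (χ : Representation ℂ Gal(AlgebraicClosure K/K) (Fin n → ℂ))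
    (χ' : Representation ℂ Gal(AlgebraicClosure K/K) (Fin n' → ℂ)), IsArtin χ → IsArtin χ' →
    Nonempty (χ.Equiv χ') → y n χ = y n' χ') ∧
  (∀ (κ : Type) [Fintype κ] (n : κ → ℕ)
    (χ : ∀ k, Representation ℂ Gal(AlgebraicClosure K/K) (Fin (n k) → ℂ)),
    (∀ k, IsArtin (χ k)) → (∀ k, (χ k).IsIrreducible) →
    (∀ k k', k ≠ k' → IsEmpty ((χ k).Equiv (χ k'))) → ∑ k, y (n k) (χ k) ^ 2 ≤ (s : ℝ) ^ 2) ∧
  (∀ (F : IntermediateField K (AlgebraicClosure K)) [NumberField F],
    ∃ (κ : Type) (_ : Fintype κ) (n : κ → ℕ)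
      (χ : ∀ k, Representation ℂ Gal(AlgebraicClosure K/K) (Fin (n k) → ℂ)),
      (∀ k, IsArtin (χ k) ∧ (χ k).IsIrreducible) ∧
      (∀ k k', k ≠ k' → IsEmpty ((χ k).Equiv (χ k'))) ∧
      (∀ (n' : ℕ) (χ' : Representation ℂ Gal(AlgebraicClosure K/K) (Fin n' → ℂ)), IsArtin χ' →
        χ'.IsIrreducible → (∀ k, IsEmpty (χ'.Equiv (χ k))) → fixedDim χ' F = 0) ∧
      δ F = ∑ k, y (n k) (χ k) * fixedDim (χ k) F) ∧
  ∀ (c : ℕ) (η : ℝ), 0 < η → ∃ M : IntermediateField K (AlgebraicClosure K),
    FiniteDimensional K M ∧ IsGalois K M ∧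
    ∀ (F : IntermediateField K (AlgebraicClosure K)) [NumberField F],
      Module.finrank K F ≤ c → |δ F - δ (F ⊓ M)| < η

section
variable {K : Type} [Field K] [NumberField K] {l : ℕ} {V : Type} [AddCommGroup V] [Module ℚ V]

/-- Let `s = N - dim V`.  Every sequence `ε_j → 0+` has a subsequence along which the quotients
`log |L(m + 1 + ε)| / log(1/ε)` converge for the `L`-functions `L(H^{2m}(X_F), s)` of all number fields
`F ⊇ K` and `L(H^{2m}(X) ⊗ χ, s)` of all Artin representations `χ` of `K` (no continuation is assumed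
here).  Let `rank ρ F - δ F` and `twistRank ρ χ - y χ` be the limits; then `δ` and `y` satisfy the
laws of `Spectrum`. -/
def TateSpectrum (X : Set (MvPolynomial (Fin l) (𝓞 K))) (d m N : ℕ)
    (ρ : Representation ℚ Gal(AlgebraicClosure K/K) V) : Prop :=
  ∀ e : ℕ → ℝ, Tendsto e atTop (𝓝[>] 0) → ∃ φ : ℕ → ℕ, StrictMono φ ∧
    ∃ (δ : IntermediateField K (AlgebraicClosure K) → ℝ)
      (y : ∀ n : ℕ, Representation ℂ Gal(AlgebraicClosure K/K) (Fin n → ℂ) → ℝ),
      (∀ (F : IntermediateField K (AlgebraicClosure K)) [NumberField F]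
        (B : HeightOneSpectrum (𝓞 F) → ℂ[X]), EF.IsEulerSystem X d (2 * m) N B →
        Tendsto (fun j => EF.size (2 * m) B (e (φ j))) atTop (𝓝 ((rank ρ F : ℝ) - δ F))) ∧
      (∀ (n : ℕ) (χ : Representation ℂ Gal(AlgebraicClosure K/K) (Fin n → ℂ)), IsArtin χ →
        ∀ B : HeightOneSpectrum (𝓞 K) → ℂ[X], IsTwistedSystem X d (2 * m) N χ 0 B →
        Tendsto (fun j => size (2 * m) 0 B (e (φ j))) atTop
          (𝓝 ((twistRank ρ χ : ℝ) - y n χ))) ∧
      Spectrum K (N - Module.finrank ℚ V) δ y

end

end Pool.Agent.W353.SP
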