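import Pool.Agent.W353.SP.Inst
import Pool.Agent.W353.SP.Defs

/-! The defects over all number fields: proofs. -/

set_option autoImplicit false

namespace Pool.Agent.W353.SP

open Complex Filter Topology NumberField IsDedekindDomain Polynomial
  Pool.Agent.W401.Cheb Pool.Agent.W540.BE Pool.Agent.W353.L1 Pool.Agent.W353.AT
open Pool.Agent.W353.NF (act fixn fixn_le TT size_fix cz vx)
open Pool.Agent.W353.TD (ch rank IsPart)
open Pool.Agent.W353.PV (tF size_X0 syX syX_real)

section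
variable {K : Type} [Field K] [NumberField K] {n : ℕ} {X : Set (MvPolynomial (Fin n) (𝓞 K))}
  {d m N : ℕ} {V : Type} [AddCommGroup V] [Module ℚ V] [FiniteDimensional ℚ V]
  {ρ : Representation ℚ (GK K) V}

/-- the laws -/
theorem to_spectrum {s : ℕ} {δF : IntermediateField K (AlgebraicClosure K) → ℝ}
    {δA : MRep (GK K) → ℝ}
    (h3 : ∀ S : Finset (MRep (GK K)), (∀ p ∈ S, Irr p) →
        (∀ p ∈ S, ∀ q ∈ S, p ≠ q → ¬ Sim p q) → ∑ p ∈ S, (δA p) ^ 2 ≤ (s : ℝ) ^ 2)
    (hcong : ∀ x y, IsArtin x.2 → IsArtin y.2 → Sim x y → δA x = δA y)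
    (h4 : ∀ (F : IntermediateField K (AlgebraicClosure K)) [NumberField F],
        ∃ S : Finset (MRep (GK K)), (∀ p ∈ S, Irr p) ∧
          (∀ p ∈ S, ∀ q ∈ S, p ≠ q → ¬ Sim p q) ∧
          (∀ x, Irr x → (∀ p ∈ S, ¬ Sim x p) → fixedDim x.2 F = 0) ∧
          δF F = ∑ p ∈ S, δA p * fixedDim p.2 F)
    (h5 : ∀ (c : ℕ) (η : ℝ), 0 < η → ∃ M : IntermediateField K (AlgebraicClosure K),
        FiniteDimensional K M ∧ IsGalois K M ∧
        ∀ (F : IntermediateField K (AlgebraicClosure K)) [NumberField F],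
          Module.finrank K F ≤ c → |δF F - δF (F ⊓ M)| < η) :
    Spectrum K s δF fun k χ => δA ⟨k, χ⟩ := by
  classical
  refine ⟨fun k k' χ χ' hχ hχ' he => hcong ⟨k, χ⟩ ⟨k', χ'⟩ hχ hχ' he, ?_, ?_, h5⟩
  · intro κ _ n χ hA hirr hne
    set g : κ → MRep (GK K) := fun k => ⟨n k, χ k⟩ with hg
    have hinj : Function.Injective g := by
      intro k k' hkk
      by_contra h
      have h1 := hne k k' h
      have h2 : Sim (g k) (g k') := by
        rw [hkk]
        exact Sim.refl _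
      exact (not_nonempty_iff.2 h1) h2
    have h1 := h3 (Finset.univ.image g) (fun p hp => by
        obtain ⟨k, -, rfl⟩ := Finset.mem_image.1 hp
        exact ⟨hA k, hirr k⟩) (fun p hp q hq hpq => by
        obtain ⟨k, -, rfl⟩ := Finset.mem_image.1 hp
        obtain ⟨k', -, rfl⟩ := Finset.mem_image.1 hq
        have h2 : k ≠ k' := fun h => hpq (by rw [h])
        exact not_nonempty_iff.2 (hne k k' h2))
    rwa [Finset.sum_image fun a _ b _ hab => hinj hab] at h1
  · intro F _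
    obtain ⟨S, hS1, hS2, hS3, hS4⟩ := h4 F
    refine ⟨S, inferInstance, fun k => k.1.1, fun k => k.1.2, fun k => hS1 k.1 k.2,
      fun k k' hkk => ?_, fun n' χ' hA' hi' hne' => ?_, ?_⟩
    · exact not_nonempty_iff.1 (hS2 k.1 k.2 k'.1 k'.2 fun h => hkk (Subtype.ext h))
    · exact hS3 ⟨n', χ'⟩ ⟨hA', hi'⟩ fun p hp hs => (not_nonempty_iff.2 (hne' ⟨p, hp⟩)) hs
    · rw [hS4, ← Finset.sum_coe_sort S (fun p => δA p * fixedDim p.2 F)]

/-- **The defects over all number fields.** -/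
theorem tateSpectrum (hmd : m ≤ d) (hpart : IsPart X d m N ρ) : TateSpectrum X d m N ρ := by
  classical
  intro e he
  have hi : 2 * m ≤ 2 * d := by omega
  choose σ hσ using exists_isFrob (F := K)
  obtain ⟨φ, hφ, δF, δA, h1, h2, h3, h4, h5⟩ := spectralTate (mnD K) hmd hpart σ hσ he
  have he' : Tendsto (fun j => e (φ j)) atTop (𝓝[>] 0) := he.comp hφ.tendsto_atTop
  refine ⟨φ, hφ, δF, fun k χ => δA ⟨k, χ⟩, ?_, ?_, to_spectrum h3 (fun x y hx hy hs => ?_) h4 h5⟩
  · intro F _ B hB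
    have h6 := size_X0 hi B hB.1 hB.2 (fun _ : Fin 0 => (1 : 𝓞 F))
    have h7 := size_fix _ (syX_real X d (2 * m) N) σ hσ h6.2
    have h8 := sz_diff (T' := fun v => tF X d (2 * m) N K v)
      (T := TT (syX X d (2 * m) N)) (fun x => ?_) h7 ?_
    · have h9 := (h1 F).2.sub (h8.comp he')
      rw [sub_zero] at h9
      refine h9.congr fun j => ?_
      have e1 : (fun v => tF X d (2 * m) N K v * ((fixn K F (σ v) : ℝ) * cz 0 v)) =
          fun v => tF X d (2 * m) N K v * fixn K F (σ v) := by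
        funext v
        unfold cz zz
        rw [Complex.ofReal_zero, zero_mul, neg_zero, Complex.cpow_zero, Complex.one_re, mul_one]
      rw [Function.comp_apply, e1, sub_sub_cancel]
      rfl
    · have e3 : TT (syX X d (2 * m) N) x =
          ∑ _j ∈ ({()} : Finset Unit), (((tF X d (2 * m) N K (vx x) : ℝ) : ℂ)).re := rfl
      rw [e3, Finset.sum_singleton, Complex.ofReal_re]
    · refine Bd.mul (f := fun v => tF X d (2 * m) N K v)
        (g := fun v => (fixn K F (σ v) : ℝ) * cz 0 v) ⟨N, fun v => abs_tr_le _ _ _⟩ ?_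
      exact (bd_fixn σ).mul ⟨1, fun v => Pool.Agent.W353.NF.abs_cz _ _⟩
  · intro k χ hχ B hB
    obtain ⟨U, hUn, hU, hx1⟩ := exists_common (κ := Unit) (n := fun _ => k)
      (fun _ => χ) fun _ => hχ
    have hfin : Finite (GK K ⧸ U) := Subgroup.quotient_finite_of_isOpen U hU
    have h6 := (tw_size hi U χ (hx1 ()) 0 B hB σ hσ).2
    have h9 := (h2 ⟨k, χ⟩ hχ).2.sub (h6.comp he')
    rw [sub_zero] at h9
    refine h9.congr fun j => ?_
    rw [Function.comp_apply]
    unfold ED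
    ring
  · have h6 := (h2 x hx).unique (h2 y hy) fun v => by rw [hs.RR]
    have h7 : twistRank ρ x.2 = twistRank ρ y.2 := by
      have h8 := ((mnD K).twMean ρ hpart.1 x hx σ hσ).unique
        ((mnD K).twMean ρ hpart.1 y hy σ hσ) fun v => by rw [hs.RR]
      exact_mod_cast h8
    rw [h7] at h6
    linarith

end

end Pool.Agent.W353.SP
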