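import Pool.Agent.W353.SP.Inst
import Pool.Agent.W385.TT.Nat

/-! Natural averages over the primes of number fields. -/

set_option autoImplicit false

namespace Pool.Agent.W353.SP

open Complex Filter Topology NumberField IsDedekindDomain
  Pool.Agent.W401.Cheb Pool.Agent.W540.BE Pool.Agent.W353.L1 Pool.Agent.W353.AT
open Pool.Agent.H341R2 (low chi)
open Pool.Agent.H921R2.TatePole (kerPrime)
open Pool.Agent.H126U (VX mem_VX)
open Pool.Agent.H126U.ST Pool.Agent.H126U.JT Pool.Agent.H126V.Taub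
open Pool.Agent.W353.NF (fixn fixn_le vx push_fix)
open Pool.Agent.W353.TP (HX push push_abs_le qh qh_abs res)
open Pool.Agent.W353.PV (tF tF_ker chi_one)
open Pool.Agent.W385.TT (PA PA_low PA_HS PA_push YH HS pc)

section
variable {F : Type} [Field F] [NumberField F]

theorem VX_eq (X : ℕ) : VX F X = upto F X := by
  ext v
  rw [mem_VX, mem_upto]
  rfl

theorem EN_eq (X : ℕ) (ψ : HeightOneSpectrum (𝓞 F) → ℝ) :
    EN F X ψ = (∑ v ∈ VX F X, ψ v) / pc X := by
  rw [VX_eq]
  rfl

/-- logarithmic weights -/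
theorem LA_EN (S : Finset (HeightOneSpectrum (𝓞 F))) {φ ψ : HeightOneSpectrum (𝓞 F) → ℝ}
    (hψ : Bd ψ) (h : ∀ v, v ∉ S → φ v = ψ v) :
    Tendsto (fun X : ℕ => LA S X φ - EN F X ψ) atTop (𝓝 0) := by
  classical
  obtain ⟨B, hB⟩ := hψ
  have hB' : ∀ v, |ψ v| ≤ |B| := fun v => (hB v).trans (le_abs_self B)
  have h1 := LA_mn S (φ := φ) (B := |B|) (abs_nonneg B) fun v hv => by
    rw [h v hv]
    exact hB' v
  have h2 := mn_change' S ∅ (φ := ψ) (b := |B|) hB'
  have h5 : Tendsto (fun X : ℕ => mn (VS ∅ X) ψ - (∑ v ∈ VX F X, ψ v) / pc X) atTop (𝓝 0) := by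
    have h6 : Tendsto (fun X : ℕ => |B| * |1 - ((VX F X).card : ℝ) / pc X|) atTop (𝓝 0) := by
      have h7 : Tendsto (fun X : ℕ => ((VX F X).card : ℝ) / pc X) atTop (𝓝 1) :=
        Pool.Agent.H126U.card_VX
      have h8 := ((h7.const_sub 1).abs).const_mul |B|
      simpa using h8
    refine squeeze_zero_norm' ?_ h6
    filter_upwards [(tendsto_card_VS (K := F) ∅).eventually_gt_atTop 0] with X hX
    have e0 : VS (K := F) ∅ X = VX F X := by
      unfold VS
      simp
    rw [e0] at hX ⊢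
    have e1 : mn (VX F X) ψ - (∑ v ∈ VX F X, ψ v) / pc X =
        mn (VX F X) ψ * (1 - ((VX F X).card : ℝ) / pc X) := by
      have e2 : ∑ v ∈ VX F X, ψ v = mn (VX F X) ψ * ((VX F X).card : ℝ) := by
        unfold mn
        exact (div_mul_cancel₀ _ hX.ne').symm
      rw [e2]
      ring
    rw [e1, Real.norm_eq_abs, abs_mul]
    exact mul_le_mul_of_nonneg_right (mn_abs_le _ (abs_nonneg B) fun v _ => hB' v) (abs_nonneg _)
  have h7 := (h1.add h2).add h5
  simp only [add_zero] at h7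
  refine h7.congr fun X => ?_
  have e3 : mn (VS S X) φ = mn (VS S X) ψ :=
    mn_congr _ fun v hv => h v (Finset.mem_filter.1 hv).2
  rw [e3, EN_eq]
  ring

variable {K : Type} [Field K] [NumberField K] [Algebra K F] {n : ℕ}
  {X : Set (MvPolynomial (Fin n) (𝓞 K))} {d i N : ℕ}

/-- averages over the homomorphisms and over the primes -/
theorem low_EN {g : HeightOneSpectrum (𝓞 K) → ℝ} (hg : Bd g) :
    Tendsto (fun Y : ℕ => EN K Y g - (∑ x ∈ HS K Y, g (vx x)) / pc Y) atTop (𝓝 0) := by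
  obtain ⟨B, hB⟩ := hg
  refine (PA_low g hB).congr fun Y => ?_
  rw [EN_eq]
  congr 1
  have h1 := PA_HS (K := K) (fun x => g (vx x)) Y
  rw [← h1]
  congr 1
  funext p
  exact Pool.Agent.W353.TP.low_kerPrime g p

/-- **Averages over the primes of `F` as averages over the primes of `K`.** -/
theorem EN_F (σ : HeightOneSpectrum (𝓞 K) → GK K) (hσ : ∀ v, IsFrob v (σ v)) :
    Tendsto (fun Y : ℕ => EN F Y (fun v => tF X d i N F v) -
      EN K Y (fun v => tF X d i N K v * fixn K F (σ v))) atTop (𝓝 0) := by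
  classical
  have hbF : ∀ v, |tF X d i N F v| ≤ (N : ℝ) := fun v => abs_tr_le _ _ _
  have hbK : ∀ v, |tF X d i N K v| ≤ (N : ℝ) := fun v => abs_tr_le _ _ _
  have h1 := PA_low (K := F) (fun v => tF X d i N F v) hbF
  -- over the homomorphisms of `F`
  have e1 : ∀ Y, PA (low fun v : HeightOneSpectrum (𝓞 F) => tF X d i N F v) Y =
      (∑ x ∈ HS K Y, tF X d i N K (vx x) * push K (qh (1 : 𝓞 F)) x) / pc Y := by
    intro Y
    have h2 := PA_push (K := K) (F := F) ({()} : Finset Unit)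
      (fun _ x => tF X d i N K (vx x)) (fun _ => (1 : 𝓞 F)) (fun _ v => tF X d i N F v)
      (fun _ _ p ψ => tF_ker p ψ) Y
    have e2 : (fun v : HeightOneSpectrum (𝓞 F) => ∑ _j ∈ ({()} : Finset Unit),
        tF X d i N F v * (chi (1 : 𝓞 F) v : ℝ)) = fun v => tF X d i N F v := by
      funext v
      rw [Finset.sum_singleton, chi_one, Int.cast_one, mul_one]
    rw [e2] at h2
    rw [h2]
    unfold YH
    congr 1
    refine Finset.sum_congr rfl fun x _ => ?_
    rw [Finset.sum_singleton]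
  -- the fixed embeddings
  obtain ⟨S, hS⟩ := push_fix K F
  set f : ℝ := (Module.finrank ℚ F : ℝ) with hf
  have hf0 : 0 ≤ f := by positivity
  have hind : Tendsto (fun Y : ℕ => (∑ x ∈ HS K Y, (if vx x ∈ S then (1 : ℝ) else 0)) / pc Y)
      atTop (𝓝 0) := by
    have hg : Bd (K := K) fun v => if v ∈ S then (1 : ℝ) else 0 := ⟨1, fun v => by
      simp only
      split_ifs <;> simp⟩
    have h2 := (mnN K).fin _ hg ((Set.Finite.subset S.finite_toSet) fun v hv => by
      by_contra hcon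
      apply hv
      exact if_neg hcon)
    have h3 := h2.sub (low_EN hg)
    rw [sub_zero] at h3
    refine h3.congr fun Y => ?_
    ring
  have h4 : Tendsto (fun Y : ℕ => (∑ x ∈ HS K Y, tF X d i N K (vx x) *
      push K (qh (1 : 𝓞 F)) x) / pc Y - (∑ x ∈ HS K Y, tF X d i N K (vx x) *
      fixn K F (σ (vx x))) / pc Y) atTop (𝓝 0) := by
    have h5 := hind.const_mul (N * (2 * f))
    rw [mul_zero] at h5
    refine squeeze_zero_norm (fun Y => ?_) h5
    have hpc : 0 ≤ pc Y := Pool.Agent.W385.TT.pc_nonneg Y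
    rw [← sub_div, ← Finset.sum_sub_distrib, Real.norm_eq_abs, abs_div, abs_of_nonneg hpc,
      ← mul_div_assoc]
    refine div_le_div_of_nonneg_right ?_ hpc
    rw [Finset.mul_sum]
    refine (Finset.abs_sum_le_sum_abs _ _).trans (Finset.sum_le_sum fun x _ => ?_)
    by_cases h : vx x ∈ S
    · rw [if_pos h, mul_one, ← mul_sub, abs_mul]
      have h6 : |push K (qh (1 : 𝓞 F)) x| ≤ f := by
        have := push_abs_le (K := K) (qh_abs (1 : 𝓞 F)) x
        rwa [mul_one] at this
      have h7 : |(fixn K F (σ (vx x)) : ℝ)| ≤ f := by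
        rw [abs_of_nonneg (Nat.cast_nonneg _)]
        exact fixn_le _
      have h8 : |push K (qh (1 : 𝓞 F)) x - (fixn K F (σ (vx x)) : ℝ)| ≤ 2 * f := by
        refine (abs_sub _ _).trans ?_
        linarith
      exact mul_le_mul (hbK _) h8 (abs_nonneg _) (Nat.cast_nonneg _)
    · rw [hS x h _ (hσ _), sub_self, abs_zero, if_neg h, mul_zero]
  have hbd : Bd fun v => tF X d i N K v * (fixn K F (σ v) : ℝ) :=
    Bd.mul (f := fun v => tF X d i N K v) (g := fun v => (fixn K F (σ v) : ℝ)) ⟨N, hbK⟩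
      (bd_fixn σ)
  have h9 := (h1.add h4).sub (low_EN hbd)
  simp only [add_zero, sub_zero] at h9
  refine h9.congr fun Y => ?_
  have e3 := EN_eq (F := F) Y (fun v => tF X d i N F v)
  rw [e3, e1]
  ring

end

end Pool.Agent.W353.SP
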