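import Pool.Agent.W353.SP.Sub

/-! Families of irreducible Artin representations attached to number fields. -/

set_option autoImplicit false

namespace Pool.Agent.W353.SP

open Complex Filter Topology ComplexConjugate NumberField IsDedekindDomain
  Pool.Agent.W401.Cheb Pool.Agent.W540.BE Pool.Agent.W353.L1 Pool.Agent.W353.AT
open Pool.Agent.W353.NF (act act_apply act_trans fixn fixn_conj fixn_inv ker_act_open fixn_le
  fixn_mul_ker)

section
variable {K : Type} [Field K] [NumberField K]

/-- representatives of a list -/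
theorem exists_reps (L : List (MRep (GK K))) : ∃ S : Finset (MRep (GK K)), (∀ p ∈ S, p ∈ L) ∧
    (∀ p ∈ S, ∀ q ∈ S, p ≠ q → ¬ Sim p q) ∧ ∀ x ∈ L, ∃ p ∈ S, Sim x p := by
  classical
  induction L with
  | nil =>
    refine ⟨∅, fun p hp => absurd hp (Finset.notMem_empty _),
      fun p hp => absurd hp (Finset.notMem_empty _), fun x hx => absurd hx List.not_mem_nil⟩
  | cons x L ih =>
    obtain ⟨S, h1, h2, h3⟩ := ih
    by_cases h : ∃ p ∈ S, Sim x p
    · refine ⟨S, fun p hp => List.mem_cons_of_mem _ (h1 p hp), h2, fun y hy => ?_⟩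
      rcases List.mem_cons.1 hy with rfl | hy
      · exact h
      · exact h3 y hy
    · push Not at h
      refine ⟨insert x S, ?_, ?_, ?_⟩
      · intro p hp
        rcases Finset.mem_insert.1 hp with rfl | hp
        · exact List.mem_cons_self
        · exact List.mem_cons_of_mem _ (h1 p hp)
      · intro p hp q hq hpq
        rcases Finset.mem_insert.1 hp with hp' | hp'
        · rcases Finset.mem_insert.1 hq with hq' | hq'
          · exact absurd (hp'.trans hq'.symm) hpq
          · rw [hp']
            exact h q hq'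
        · rcases Finset.mem_insert.1 hq with hq' | hq'
          · rw [hq']
            exact fun hs => h p hp' hs.symm
          · exact h2 p hp' q hq' hpq
      · intro y hy
        rcases List.mem_cons.1 hy with rfl | hy
        · exact ⟨y, Finset.mem_insert_self y S, Sim.refl y⟩
        · obtain ⟨p, hp, hs⟩ := h3 y hy
          exact ⟨p, Finset.mem_insert_of_mem hp, hs⟩

/-- sums over a list in terms of multiplicities -/
theorem list_fam {f : MRep (GK K) → ℝ} {P : MRep (GK K) → Prop}
    (hf : ∀ x y, P x → P y → Sim x y → f x = f y) {S : Finset (MRep (GK K))}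
    (hSP : ∀ p ∈ S, P p) (hS : ∀ p ∈ S, ∀ q ∈ S, p ≠ q → ¬ Sim p q) (L : List (MRep (GK K)))
    (hL : ∀ x ∈ L, P x) (hc : ∀ x ∈ L, ∃ p ∈ S, Sim x p) :
    (L.map f).sum = ∑ p ∈ S, f p * mult L p := by
  classical
  induction L with
  | nil =>
    rw [List.map_nil, List.sum_nil]
    refine (Finset.sum_eq_zero fun p _ => ?_).symm
    unfold mult
    rw [List.map_nil, List.sum_nil, Nat.cast_zero, mul_zero]
  | cons x L ih =>
    have ih := ih (fun y hy => hL y (List.mem_cons_of_mem _ hy))
      (fun y hy => hc y (List.mem_cons_of_mem _ hy))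
    have hx := hL x List.mem_cons_self
    rw [List.map_cons, List.sum_cons, ih]
    have e1 : ∀ p : MRep (GK K), (mult (x :: L) p : ℝ) =
        (if Sim x p then 1 else 0) + mult L p := by
      intro p
      unfold mult
      rw [List.map_cons, List.sum_cons]
      push_cast
      rfl
    have e2 : ∑ p ∈ S, f p * (mult (x :: L) p : ℝ) =
        (∑ p ∈ S, f p * (if Sim x p then 1 else 0)) + ∑ p ∈ S, f p * (mult L p : ℝ) := by
      rw [← Finset.sum_add_distrib]
      refine Finset.sum_congr rfl fun p _ => ?_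
      rw [e1, mul_add]
    rw [e2]
    congr 1
    obtain ⟨p, hp, hs⟩ := hc x List.mem_cons_self
    rw [Finset.sum_eq_single p]
    · rw [if_pos hs, mul_one]
      exact hf x p hx (hSP p hp) hs
    · intro q hq hqp
      rw [if_neg, mul_zero]
      intro hs'
      exact hS q hq p hp hqp (hs'.symm.trans hs)
    · intro h
      exact absurd hp h

/-- the multiplicities for a number field -/
theorem mult_F (F : IntermediateField K (AlgebraicClosure K)) [NumberField F]
    {U : Subgroup (GK K)} [U.Normal] (hU : IsOpen (U : Set (GK K)))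
    (hF : ∀ u ∈ U, act K F u = 1) (L : List (MRep (GK K)))
    (hL : ∀ x ∈ L, x.2.IsIrreducible ∧ ∀ u ∈ U, x.2 u = 1)
    (hfix : ∀ g, (fixn K F g : ℂ) = (L.map fun x => x.2.character g).sum)
    (y : MRep (GK K)) (hy : Irr y) : mult L y = fixedDim y.2 F := by
  obtain ⟨W, hWn, hW, hyW⟩ := exists_common (κ := Unit) (n := fun _ => y.1)
    (fun _ => y.2) fun _ => hy.1
  have hUW : IsOpen ((U ⊓ W : Subgroup (GK K)) : Set (GK K)) := by
    rw [Subgroup.coe_inf]
    exact hU.inter hW
  have hfin : Finite (GK K ⧸ (U ⊓ W)) := Subgroup.quotient_finite_of_isOpen _ hUW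
  have h1 := mult_eq F.val (U ⊓ W) (fun u hu => hF u hu.1) L
    (fun x hx => ⟨(hL x hx).1, fun u hu => (hL x hx).2 u hu.1⟩) hfix y hy.2
    (fun u hu => hyW () u hu.2)
  rw [h1, IntermediateField.fieldRange_val]
  rfl

/-- the family of a number field -/
theorem exists_fam (F : IntermediateField K (AlgebraicClosure K)) [NumberField F] :
    ∃ (U : Subgroup (GK K)) (L : List (MRep (GK K))) (S : Finset (MRep (GK K))),
      U.Normal ∧ IsOpen (U : Set (GK K)) ∧ (∀ u ∈ U, act K F u = 1) ∧
      (∀ x ∈ L, Irr x ∧ ∀ u ∈ U, x.2 u = 1) ∧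
      (∀ g, (fixn K F g : ℂ) = (L.map fun x => x.2.character g).sum) ∧
      (∀ x, Irr x → mult L x = fixedDim x.2 F) ∧
      (∀ p ∈ S, p ∈ L) ∧ (∀ p ∈ S, ∀ q ∈ S, p ≠ q → ¬ Sim p q) ∧
      ∀ x ∈ L, ∃ p ∈ S, Sim x p := by
  have hU := ker_act_open K F
  have hfin : Finite (GK K ⧸ (act K F).ker) := Subgroup.quotient_finite_of_isOpen _ hU
  have hF : ∀ u ∈ (act K F).ker, act K F u = 1 := fun u hu => (MonoidHom.mem_ker).1 hu
  obtain ⟨L, hL, hfix⟩ := fix_decomp K F (act K F).ker hF
  obtain ⟨S, h1, h2, h3⟩ := exists_reps L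
  exact ⟨(act K F).ker, L, S, inferInstance, hU, hF,
    fun x hx => ⟨⟨⟨_, hU, (hL x hx).2⟩, (hL x hx).1⟩, (hL x hx).2⟩, hfix,
    fun x hx => mult_F F hU hF L hL hfix x hx, h1, h2, h3⟩

theorem mult_pos {L : List (MRep (GK K))} {y : MRep (GK K)} (h : mult L y ≠ 0) :
    ∃ x ∈ L, Sim x y := by
  classical
  by_contra hcon
  push Not at hcon
  apply h
  unfold mult
  induction L with
  | nil => rfl
  | cons x L ih =>
    rw [List.map_cons, List.sum_cons, if_neg (hcon x List.mem_cons_self), zero_add]
    exact ih (fun h' => h (by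
      unfold mult at h' ⊢
      rw [List.map_cons, List.sum_cons, if_neg (hcon x List.mem_cons_self), zero_add]
      exact h')) fun z hz => hcon z (List.mem_cons_of_mem _ hz)

theorem mult_ne_zero {L : List (MRep (GK K))} {x : MRep (GK K)} (h : x ∈ L) : mult L x ≠ 0 := by
  classical
  unfold mult
  induction L with
  | nil => exact absurd h List.not_mem_nil
  | cons y L ih =>
    rw [List.map_cons, List.sum_cons]
    rcases List.mem_cons.1 h with rfl | h
    · rw [if_pos (Sim.refl x)]
      omega
    · have := ih h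
      omega

theorem fixedDim_le {n : ℕ} (χ : Representation ℂ (GK K) (Fin n → ℂ))
    (F : IntermediateField K (AlgebraicClosure K)) : fixedDim χ F ≤ n := by
  unfold fixedDim
  refine (Submodule.finrank_le _).trans ?_
  simp

theorem fixedDim_mono {n : ℕ} (χ : Representation ℂ (GK K) (Fin n → ℂ))
    {F F' : IntermediateField K (AlgebraicClosure K)} (h : F' ≤ F) :
    fixedDim χ F' ≤ fixedDim χ F := by
  unfold fixedDim
  refine Submodule.finrank_mono fun x hx g => ?_
  exact hx ⟨g.1, IntermediateField.fixingSubgroup_le h g.2⟩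

/-- the sum of the squares of the multiplicities -/
theorem sum_sq_le (F : IntermediateField K (AlgebraicClosure K)) [NumberField F]
    {L : List (MRep (GK K))} (hL : ∀ x ∈ L, Irr x)
    (hfix : ∀ g, (fixn K F g : ℂ) = (L.map fun x => x.2.character g).sum)
    (hm : ∀ x, Irr x → mult L x = fixedDim x.2 F) {S : Finset (MRep (GK K))}
    (hS : ∀ p ∈ S, p ∈ L) (hS2 : ∀ p ∈ S, ∀ q ∈ S, p ≠ q → ¬ Sim p q)
    (hS3 : ∀ x ∈ L, ∃ p ∈ S, Sim x p) :
    ∑ p ∈ S, (fixedDim p.2 F : ℝ) ^ 2 ≤ Module.finrank K F := by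
  have h1 := hfix 1
  have h2 : fixn K F 1 = Module.finrank K F := by
    unfold fixn
    have e : Nat.card {i : F →ₐ[K] AlgebraicClosure K // act K F 1 i = i} =
        Nat.card (F →ₐ[K] AlgebraicClosure K) := by
      refine Nat.card_congr (Equiv.subtypeUnivEquiv fun i => ?_)
      rw [map_one]
      rfl
    rw [e, Nat.card_eq_fintype_card]
    exact AlgHom.card K F (AlgebraicClosure K)
  have hc : ∀ x : MRep (GK K), x.2.character 1 = (x.1 : ℂ) := by
    intro x
    rw [Representation.char_one]
    simp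
  have h3 : (L.map fun x => x.2.character 1).sum = (((L.map fun x => (x.1 : ℝ)).sum : ℝ) : ℂ) := by
    have e : ∀ L' : List (MRep (GK K)), (L'.map fun x => x.2.character 1).sum =
        (((L'.map fun x => (x.1 : ℝ)).sum : ℝ) : ℂ) := by
      intro L'
      induction L' with
      | nil => simp
      | cons x L' ih =>
        rw [List.map_cons, List.sum_cons, ih, List.map_cons, List.sum_cons, hc]
        push_cast
        rfl
    exact e L
  rw [h3, h2] at h1
  have h4 : ((Module.finrank K F : ℕ) : ℝ) = (L.map fun x => (x.1 : ℝ)).sum := by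
    exact_mod_cast h1
  have h5 := list_fam (f := fun x => (x.1 : ℝ)) (P := Irr) (fun x y _ _ hs => by
    have := congrFun hs.char 1
    rw [hc, hc] at this
    exact_mod_cast this) (S := S) (fun p hp => hL p (hS p hp)) hS2 L hL hS3
  rw [h4, h5]
  refine Finset.sum_le_sum fun p hp => ?_
  rw [hm p (hL p (hS p hp)), sq]
  exact mul_le_mul_of_nonneg_right (by exact_mod_cast fixedDim_le p.2 F) (Nat.cast_nonneg _)

end

end Pool.Agent.W353.SP
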