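import Pool.Agent.W353.SP.Tate

/-! The two kinds of mean values. -/

set_option autoImplicit false

namespace Pool.Agent.W353.SP

open Complex Filter Topology ComplexConjugate NumberField IsDedekindDomain Asymptotics
  Pool.Agent.W401.Cheb Pool.Agent.W540.BE Pool.Agent.W353.L1 Pool.Agent.W353.AT
open Pool.Agent.H341R2 (lam lam_tendsto sysK)
open Pool.Agent.W353.NF (SzH EP_eq vx)
open Pool.Agent.W353.TP (HX sysH LL LL_tendsto E_H bdd_isLittleO lam0_sub)

section
variable (K : Type) [Field K] [NumberField K]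

/-- the mean values with the weights `q ^ (-1-ε)` -/
noncomputable def ED (ε : ℝ) (f : HeightOneSpectrum (𝓞 K) → ℝ) : ℝ := EP (nm K) ε f / lam ε

theorem mnD : Mn (𝓝[>] 0) (ED K) where
  add f g hf hg := by
    obtain ⟨B, hB⟩ := hf
    obtain ⟨B', hB'⟩ := hg
    filter_upwards [self_mem_nhdsWithin] with ε hε
    unfold ED
    rw [EP_add normSys hε hB hB', add_div]
  smul c f ε := by
    unfold ED
    rw [EP_const_mul, mul_div_assoc]
  mono f g hf hg hfg := by
    obtain ⟨B, hB⟩ := hf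
    obtain ⟨B', hB'⟩ := hg
    filter_upwards [self_mem_nhdsWithin, lam_tendsto.eventually_gt_atTop 0] with ε hε hε'
    exact div_le_div_of_nonneg_right (EP_mono hB hB' hfg hε) hε'.le
  one := EP_one K
  fin f hf hs := by
    obtain ⟨B, hB⟩ := hf
    rw [tendsto_zero_iff_abs_tendsto_zero]
    have h3 : Tendsto (fun ε : ℝ => (hs.toFinset.card * B : ℝ) / lam ε) (𝓝[>] 0) (𝓝 0) :=
      tendsto_const_nhds.div_atTop lam_tendsto
    refine squeeze_zero' (Eventually.of_forall fun ε => abs_nonneg _) ?_ h3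
    filter_upwards [self_mem_nhdsWithin, lam_tendsto.eventually_gt_atTop 0] with ε hε hε'
    rw [Function.comp_apply]
    unfold ED
    rw [abs_div, abs_of_pos hε']
    refine div_le_div_of_nonneg_right ?_ hε'.le
    refine EP_finsupp normSys hs.toFinset f (fun v hv => ?_) _ hB hε
    rw [Set.Finite.mem_toFinset, Set.mem_ofPred_eq, not_not] at hv
    exact hv
  cheb U _ _ hU ψ hψ c hc σ hσ := by
    have h1 := cheb_edge U hU ψ hψ c hc σ hσ 0
    rw [if_pos rfl] at h1
    refine h1.congr fun ε => ?_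
    unfold ED
    congr 2
    funext v
    rw [Complex.ofReal_zero, zero_mul, neg_zero, Complex.cpow_zero, mul_one]

/-- the natural mean values -/
noncomputable def EN (n : ℕ) (f : HeightOneSpectrum (𝓞 K) → ℝ) : ℝ :=
  (∑ v ∈ upto K n, f v) / (Nat.primeCounting n : ℝ)

theorem pc_top : Tendsto (fun n : ℕ => (Nat.primeCounting n : ℝ)) atTop atTop :=
  tendsto_natCast_atTop_atTop.comp Nat.tendsto_primeCounting

theorem chebN (U : Subgroup (GK K)) [U.Normal] (hU : IsOpen (U : Set (GK K)))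
    [Finite (GK K ⧸ U)] (ψ : GK K ⧸ U → ℂ) (hψ : ∀ a g, ψ (g * a * g⁻¹) = ψ a) (c : ℝ)
    (hc : avC U ψ = c) (σ : HeightOneSpectrum (𝓞 K) → GK K) (hσ : ∀ v, IsFrob v (σ v)) :
    Tendsto (fun n => EN K n fun v => (ψ (QuotientGroup.mk (σ v))).re) atTop (𝓝 c) := by
  have h1 := cheb_mean U hU ψ hψ σ hσ
  have h2 : (Nat.card (GK K ⧸ U) : ℂ)⁻¹ * ∑ᶠ q, ψ q = (c : ℂ) := hc
  rw [h2] at h1
  have h3 := (Complex.continuous_re.tendsto _).comp h1
  rw [Complex.ofReal_re] at h3
  refine h3.congr fun n => ?_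
  rw [Function.comp_apply]
  unfold EN
  have e : ((Nat.primeCounting n : ℕ) : ℂ) = (((Nat.primeCounting n : ℕ) : ℝ) : ℂ) := by
    push_cast
    rfl
  rw [e, Complex.div_ofReal_re, Complex.re_sum]

theorem mnN : Mn atTop (EN K) where
  add f g _ _ := by
    filter_upwards with n
    unfold EN
    rw [Finset.sum_add_distrib, add_div]
  smul c f n := by
    unfold EN
    rw [← Finset.mul_sum, mul_div_assoc]
  mono f g _ _ hfg := by
    filter_upwards with n
    exact div_le_div_of_nonneg_right (Finset.sum_le_sum fun v _ => hfg v) (Nat.cast_nonneg _)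
  one := by
    choose σ hσ using exists_isFrob (F := K)
    have hfin : Finite (GK K ⧸ (⊤ : Subgroup (GK K))) :=
      Subgroup.quotient_finite_of_isOpen _ isOpen_univ
    have h1 := chebN K (⊤ : Subgroup (GK K)) isOpen_univ (fun _ => (1 : ℂ))
      (fun _ _ => rfl) 1 (by
        classical
        let _ : Fintype (GK K ⧸ (⊤ : Subgroup (GK K))) := Fintype.ofFinite _
        unfold avC
        rw [finsum_eq_sum_of_fintype, Finset.sum_const, Finset.card_univ, nsmul_eq_mul, mul_one,
          Nat.card_eq_fintype_card, Complex.ofReal_one]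
        exact inv_mul_cancel₀ (by exact_mod_cast Fintype.card_ne_zero)) σ hσ
    refine h1.congr fun n => ?_
    congr 1
  fin f hf hs := by
    obtain ⟨B, hB⟩ := hf
    rw [tendsto_zero_iff_abs_tendsto_zero]
    have h3 : Tendsto (fun n : ℕ => (∑ v ∈ hs.toFinset, |f v|) / (Nat.primeCounting n : ℝ)) atTop
        (𝓝 0) := tendsto_const_nhds.div_atTop pc_top
    refine squeeze_zero (fun n => abs_nonneg _) (fun n => ?_) h3
    rw [Function.comp_apply]
    unfold EN
    have habs : |(Nat.primeCounting n : ℝ)| = Nat.primeCounting n :=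
      abs_of_nonneg (Nat.cast_nonneg _)
    rw [abs_div, habs]
    refine div_le_div_of_nonneg_right ?_ (Nat.cast_nonneg _)
    refine (Finset.abs_sum_le_sum_abs _ _).trans ?_
    rw [← Finset.sum_filter_ne_zero]
    refine Finset.sum_le_sum_of_subset_of_nonneg (fun v hv => ?_) fun _ _ _ => abs_nonneg _
    rw [Set.Finite.mem_toFinset]
    exact fun h => (Finset.mem_filter.1 hv).2 (by rw [h, abs_zero])
  cheb U _ _ hU ψ hψ c hc σ hσ := chebN K U hU ψ hψ c hc σ hσ

variable {K}

/-- **Sizes and mean values.** -/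
theorem sz_diff {T' : HeightOneSpectrum (𝓞 K) → ℝ} {T : HX K → ℝ} (hTT : ∀ x, T x = T' (vx x))
    {Ψ : HeightOneSpectrum (𝓞 K) → ℝ} {A : ℝ → ℝ} (hS : SzH T Ψ A)
    (hB : Bd fun v => T' v * Ψ v) :
    Tendsto (fun ε => ED K ε (fun v => T' v * Ψ v) - A ε) (𝓝[>] 0) (𝓝 0) := by
  obtain ⟨B, hB⟩ := hB
  have hLL : ∀ᶠ ε : ℝ in 𝓝[>] 0, 0 < LL ε := LL_tendsto.eventually_gt_atTop 0
  have o1 : (fun ε => A ε * LL ε - EP (nm K) ε (fun v => T' v * Ψ v)) =o[𝓝[>] 0] LL := by
    have h1 : (fun ε => (sysK K).E ε (fun v => T' v * Ψ v) - (sysH K).E ε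
        (fun x : HX K => T x * Ψ (vx x))) =o[𝓝[>] 0] LL := by
      refine bdd_isLittleO ⟨B * Module.finrank ℚ K * Pool.Agent.H921R2.TatePole.C0, ?_⟩
      filter_upwards [self_mem_nhdsWithin] with ε hε
      have h2 := E_H hB hε
      have e : (fun x : HX K => T x * Ψ (vx x)) = fun x : HX K =>
          T' (Pool.Agent.H921R2.TatePole.kerPrime x.1 x.2).1.1 *
            Ψ (Pool.Agent.H921R2.TatePole.kerPrime x.1 x.2).1.1 := by
        funext x
        rw [hTT]
        rfl
      rw [e]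
      exact h2
    unfold SzH at hS
    refine (hS.sub h1).congr' ?_ (EventuallyEq.refl _ _)
    filter_upwards with ε
    rw [EP_eq]
    exact (by intro a b c; ring : ∀ a b c : ℝ, (a - b) - (c - b) = a - c) _ _ _
  have h2 : Tendsto (fun ε => A ε - EP (nm K) ε (fun v => T' v * Ψ v) / LL ε) (𝓝[>] 0)
      (𝓝 0) := by
    have h3 := o1.tendsto_div_nhds_zero
    refine h3.congr' ?_
    filter_upwards [hLL] with ε hε
    rw [sub_div, mul_div_cancel_right₀ _ hε.ne']
  have h3 : Tendsto (fun ε => 1 - lam ε / LL ε) (𝓝[>] 0) (𝓝 0) := by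
    have h4 := lam0_sub.tendsto_div_nhds_zero.neg
    rw [neg_zero] at h4
    refine h4.congr' ?_
    filter_upwards [hLL] with ε hε
    rw [sub_div, div_self hε.ne']
    ring
  have h4 : Tendsto (fun ε => ED K ε (fun v => T' v * Ψ v) * (1 - lam ε / LL ε)) (𝓝[>] 0)
      (𝓝 0) := by
    have h5 := (h3.abs).const_mul (2 * |B|)
    rw [abs_zero, mul_zero] at h5
    refine squeeze_zero_norm' ?_ h5
    filter_upwards [(mnD K).bound hB] with ε hε
    rw [Real.norm_eq_abs, abs_mul]
    exact mul_le_mul_of_nonneg_right hε (abs_nonneg _)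
  have h6 := h4.sub h2
  rw [sub_zero] at h6
  refine h6.congr' ?_
  filter_upwards [hLL, lam_tendsto.eventually_gt_atTop 0] with ε hε hε'
  unfold ED
  rw [mul_sub, mul_one, div_mul_div_cancel₀ hε'.ne']
  ring

end

end Pool.Agent.W353.SP
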