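import Pool.Agent.W353.AT.Link

/-! Generalised mean values over the primes of a number field. -/

set_option autoImplicit false

namespace Pool.Agent.W353.SP

open Complex Filter Topology ComplexConjugate NumberField IsDedekindDomain
  Pool.Agent.W401.Cheb Pool.Agent.W540.BE Pool.Agent.W353.L1 Pool.Agent.W353.AT
open Pool.Agent.W353.NF (act act_apply act_trans fixn fixn_conj fixn_inv ker_act_open fixn_le)
open Pool.Agent.W353.TD (ch Ph Ph_open GG GG_Ph GG_conj mean_GG)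

section
variable {K : Type} [Field K] [NumberField K]

/-- bounded functions -/
def Bd (f : HeightOneSpectrum (𝓞 K) → ℝ) : Prop := ∃ B : ℝ, ∀ v, |f v| ≤ B

theorem Bd.add {f g : HeightOneSpectrum (𝓞 K) → ℝ} (hf : Bd f) (hg : Bd g) :
    Bd fun v => f v + g v := by
  obtain ⟨B, hB⟩ := hf
  obtain ⟨B', hB'⟩ := hg
  exact ⟨B + B', fun v => (abs_add_le _ _).trans (add_le_add (hB v) (hB' v))⟩

theorem Bd.mul {f g : HeightOneSpectrum (𝓞 K) → ℝ} (hf : Bd f) (hg : Bd g) :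
    Bd fun v => f v * g v := by
  obtain ⟨B, hB⟩ := hf
  obtain ⟨B', hB'⟩ := hg
  refine ⟨|B| * |B'|, fun v => ?_⟩
  rw [abs_mul]
  exact mul_le_mul ((hB v).trans (le_abs_self B)) ((hB' v).trans (le_abs_self B'))
    (abs_nonneg _) (abs_nonneg _)

theorem Bd.const (c : ℝ) : Bd (K := K) fun _ => c := ⟨|c|, fun _ => le_rfl⟩

theorem Bd.neg {f : HeightOneSpectrum (𝓞 K) → ℝ} (hf : Bd f) : Bd fun v => -f v := by
  obtain ⟨B, hB⟩ := hf
  exact ⟨B, fun v => by rw [abs_neg]; exact hB v⟩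

variable {ι : Type} (l : Filter ι) (E : ι → (HeightOneSpectrum (𝓞 K) → ℝ) → ℝ)

/-- generalised mean values -/
structure Mn : Prop where
  add : ∀ f g, Bd f → Bd g → ∀ᶠ i in l, E i (fun v => f v + g v) = E i f + E i g
  smul : ∀ (c : ℝ) f i, E i (fun v => c * f v) = c * E i f
  mono : ∀ f g, Bd f → Bd g → (∀ v, f v ≤ g v) → ∀ᶠ i in l, E i f ≤ E i g
  one : Tendsto (fun i => E i fun _ => 1) l (𝓝 1)
  fin : ∀ f, Bd f → {v | f v ≠ 0}.Finite → Tendsto (fun i => E i f) l (𝓝 0)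
  cheb : ∀ (U : Subgroup (GK K)) [U.Normal] [Finite (GK K ⧸ U)], IsOpen (U : Set (GK K)) →
    ∀ ψ : GK K ⧸ U → ℂ, (∀ a g, ψ (g * a * g⁻¹) = ψ a) → ∀ c : ℝ, avC U ψ = c →
    ∀ σ : HeightOneSpectrum (𝓞 K) → GK K, (∀ v, IsFrob v (σ v)) →
    Tendsto (fun i => E i fun v => (ψ (QuotientGroup.mk (σ v))).re) l (𝓝 c)

/-- `φ` is bounded with the mean value `m` -/
def Hs (φ : HeightOneSpectrum (𝓞 K) → ℝ) (m : ℝ) : Prop :=
  Bd φ ∧ Tendsto (fun i => E i φ) l (𝓝 m)

variable {l E}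

theorem Mn.comp (h : Mn l E) {z : ℕ → ι} (hz : Tendsto z atTop l) :
    Mn atTop fun n => E (z n) where
  add f g hf hg := hz.eventually (h.add f g hf hg)
  smul c f i := h.smul c f (z i)
  mono f g hf hg hfg := hz.eventually (h.mono f g hf hg hfg)
  one := h.one.comp hz
  fin f hf hs := (h.fin f hf hs).comp hz
  cheb U _ _ hU ψ hψ c hc σ hσ := (h.cheb U hU ψ hψ c hc σ hσ).comp hz

theorem Mn.hsOne (h : Mn l E) : Hs l E (fun _ => 1) 1 := ⟨Bd.const 1, h.one⟩

theorem Mn.hsFin (h : Mn l E) {f : HeightOneSpectrum (𝓞 K) → ℝ} (hf : Bd f)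
    (hs : {v | f v ≠ 0}.Finite) : Hs l E f 0 := ⟨hf, h.fin f hf hs⟩

theorem Mn.hsAdd (h : Mn l E) {f g : HeightOneSpectrum (𝓞 K) → ℝ} {a b : ℝ}
    (hf : Hs l E f a) (hg : Hs l E g b) : Hs l E (fun v => f v + g v) (a + b) := by
  refine ⟨hf.1.add hg.1, (hf.2.add hg.2).congr' ?_⟩
  filter_upwards [h.add f g hf.1 hg.1] with i hi
  exact hi.symm

theorem Mn.hsMul (h : Mn l E) {f : HeightOneSpectrum (𝓞 K) → ℝ} {a : ℝ} (hf : Hs l E f a)
    (c : ℝ) : Hs l E (fun v => c * f v) (c * a) :=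
  ⟨(Bd.const c).mul hf.1, (hf.2.const_mul c).congr fun i => (h.smul c f i).symm⟩

theorem Hs.congr {f g : HeightOneSpectrum (𝓞 K) → ℝ} {a b : ℝ} (hf : Hs l E f a)
    (h : ∀ v, f v = g v) (hab : a = b) : Hs l E g b := by
  have : f = g := funext h
  rw [← this, ← hab]
  exact hf

theorem Mn.hsZero (h : Mn l E) : Hs l E (fun _ => 0) 0 :=
  (h.hsMul h.hsOne 0).congr (fun _ => by ring) (by ring)

theorem Mn.hsSum (h : Mn l E) {κ : Type*} (S : Finset κ)
    {f : κ → HeightOneSpectrum (𝓞 K) → ℝ} {a : κ → ℝ} (hf : ∀ k ∈ S, Hs l E (f k) (a k)) :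
    Hs l E (fun v => ∑ k ∈ S, f k v) (∑ k ∈ S, a k) := by
  classical
  induction S using Finset.induction_on with
  | empty =>
    refine h.hsZero.congr (fun v => ?_) ?_ <;> simp
  | insert x s hx ih =>
    refine (h.hsAdd (hf x (Finset.mem_insert_self x s))
      (ih fun k hk => hf k (Finset.mem_insert_of_mem hk))).congr (fun v => ?_) ?_
    · rw [Finset.sum_insert hx]
    · rw [Finset.sum_insert hx]

theorem Hs.le [l.NeBot] (h : Mn l E) {f g : HeightOneSpectrum (𝓞 K) → ℝ} {a b : ℝ}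
    (hf : Hs l E f a) (hg : Hs l E g b) (hfg : ∀ v, f v ≤ g v) : a ≤ b :=
  le_of_tendsto_of_tendsto hf.2 hg.2 (h.mono f g hf.1 hg.1 hfg)

theorem Hs.unique [l.NeBot] {f g : HeightOneSpectrum (𝓞 K) → ℝ} {a b : ℝ}
    (hf : Hs l E f a) (hg : Hs l E g b) (hfg : ∀ v, f v = g v) : a = b := by
  have : f = g := funext hfg
  subst this
  exact tendsto_nhds_unique hf.2 hg.2

/-- bounds for the mean values of bounded functions -/
theorem Mn.bound (h : Mn l E) {f : HeightOneSpectrum (𝓞 K) → ℝ} {B : ℝ} (hf : ∀ v, |f v| ≤ B) :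
    ∀ᶠ i in l, |E i f| ≤ 2 * |B| := by
  have hB : Bd f := ⟨B, hf⟩
  have h1 : Hs l E (fun _ => |B|) |B| := (h.hsMul h.hsOne |B|).congr (fun _ => by ring) (by ring)
  by_cases h0 : |B| = 0
  · -- the zero function
    have h2 : f = fun _ => 0 * 1 := by
      funext v
      have h3 := (hf v).trans (le_abs_self B)
      rw [h0] at h3
      rw [zero_mul]
      exact abs_nonpos_iff.1 h3
    filter_upwards with i
    rw [h2, h.smul, zero_mul, abs_zero]
    positivity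
  · have hpos : 0 < |B| := lt_of_le_of_ne (abs_nonneg _) (Ne.symm h0)
    filter_upwards [h.mono f (fun _ => |B|) hB (Bd.const _) fun v =>
        (le_abs_self _).trans ((hf v).trans (le_abs_self B)),
      h.mono (fun _ => -1 * |B|) f (Bd.const _) hB fun v => by
        have h3 := (abs_le.1 ((hf v).trans (le_abs_self B))).1
        linarith,
      h1.2.eventually_lt_const (show |B| < 2 * |B| by linarith)] with i h3 h4 h5
    have h6 : E i (fun _ => -1 * |B|) = -1 * E i (fun _ => |B|) := h.smul (-1) (fun _ => |B|) i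
    rw [abs_le]
    constructor
    · rw [h6] at h4
      linarith
    · linarith

/-- the mean value of a character against another one -/
theorem Mn.ortho (h : Mn l E) (U : Subgroup (GK K)) [U.Normal] (hU : IsOpen (U : Set (GK K)))
    [Finite (GK K ⧸ U)] {κ : Type*} {n : κ → ℕ}
    (χ : ∀ k, Representation ℂ (GK K) (Fin (n k) → ℂ)) (hχ : ∀ k, ∀ u ∈ U, χ k u = 1)
    (σ : HeightOneSpectrum (𝓞 K) → GK K) (hσ : ∀ v, IsFrob v (σ v)) {k k' : κ}
    (hk : (χ k).IsIrreducible) (hk' : (χ k').IsIrreducible)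
    [Decidable (Nonempty ((χ k).Equiv (χ k')))] :
    Hs l E (fun v => ((χ k).character (σ v)⁻¹ * conj ((χ k').character (σ v)⁻¹)).re)
      (if Nonempty ((χ k).Equiv (χ k')) then 1 else 0) := by
  classical
  have h1 := avC_ortho U χ hχ hk hk'
  have h2 : avC U (fun q => (chF U χ hχ k).f q * conj ((chF U χ hχ k').f q)) =
      (((if Nonempty ((χ k).Equiv (χ k')) then 1 else 0 : ℝ)) : ℂ) := by
    rw [h1]
    split_ifs <;> simp
  refine ⟨⟨n k * n k', fun v => ?_⟩, ?_⟩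
  · refine (Complex.abs_re_le_norm _).trans ?_
    rw [norm_mul, Complex.norm_conj]
    exact mul_le_mul (norm_char_le U (χ k) (hχ k) _) (norm_char_le U (χ k') (hχ k') _)
      (norm_nonneg _) (Nat.cast_nonneg _)
  · exact h.cheb U hU _ (fun a g => by
      rw [(chF U χ hχ k).cls, (chF U χ hχ k').cls]) _ h2 σ hσ

/-- **Bessel's inequality.** -/
theorem Mn.bessel [l.NeBot] (h : Mn l E) (U : Subgroup (GK K)) [U.Normal]
    (hU : IsOpen (U : Set (GK K))) [Finite (GK K ⧸ U)] {κ : Type*} (S : Finset κ) {n : κ → ℕ}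
    (χ : ∀ k, Representation ℂ (GK K) (Fin (n k) → ℂ)) (hχ : ∀ k, ∀ u ∈ U, χ k u = 1)
    (σ : HeightOneSpectrum (𝓞 K) → GK K) (hσ : ∀ v, IsFrob v (σ v))
    {T : HeightOneSpectrum (𝓞 K) → ℝ} {s : ℝ} (hs : 0 ≤ s) (hT : ∀ v, |T v| ≤ s)
    (hirr : ∀ k ∈ S, (χ k).IsIrreducible)
    (hne : ∀ k ∈ S, ∀ k' ∈ S, k ≠ k' → IsEmpty ((χ k).Equiv (χ k'))) {y : κ → ℝ}
    (hy : ∀ k ∈ S, Hs l E (fun v => T v * RR (χ k) 0 σ v) (y k)) :
    ∑ k ∈ S, (y k) ^ 2 ≤ s ^ 2 := by
  classical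
  set Y : ℝ := ∑ k ∈ S, (y k) ^ 2 with hY
  have hY0 : 0 ≤ Y := Finset.sum_nonneg fun k _ => sq_nonneg _
  rcases hY0.eq_or_lt with h0 | h0
  · rw [← h0]
    positivity
  set g : HeightOneSpectrum (𝓞 K) → ℂ := fun v => ∑ k ∈ S, (y k : ℂ) *
    (χ k).character (σ v)⁻¹ with hg
  have hRR : ∀ k v, RR (χ k) 0 σ v = ((χ k).character (σ v)⁻¹).re := by
    intro k v
    unfold RR zz
    rw [Complex.ofReal_zero, zero_mul, neg_zero, Complex.cpow_zero, mul_one]
  have hWg : ∀ v, ∑ k ∈ S, y k * RR (χ k) 0 σ v = (g v).re := by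
    intro v
    rw [hg]
    simp only
    rw [Complex.re_sum]
    refine Finset.sum_congr rfl fun k _ => ?_
    rw [Complex.re_ofReal_mul, hRR]
  have hgg : ∀ v, ‖g v‖ ^ 2 = ∑ k ∈ S, ∑ k' ∈ S, y k * y k' *
      ((χ k).character (σ v)⁻¹ * conj ((χ k').character (σ v)⁻¹)).re := by
    intro v
    have h1 : (‖g v‖ ^ 2 : ℝ) = (g v * conj (g v)).re := by
      rw [Complex.mul_conj, Complex.normSq_eq_norm_sq, Complex.ofReal_re]
    rw [h1, hg]
    simp only
    rw [map_sum, Finset.sum_mul_sum, Complex.re_sum]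
    refine Finset.sum_congr rfl fun k _ => ?_
    rw [Complex.re_sum]
    refine Finset.sum_congr rfl fun k' _ => ?_
    have h2 : (y k : ℂ) * (χ k).character (σ v)⁻¹ *
        conj ((y k' : ℂ) * (χ k').character (σ v)⁻¹) =
        ((y k * y k' : ℝ) : ℂ) *
          ((χ k).character (σ v)⁻¹ * conj ((χ k').character (σ v)⁻¹)) := by
      rw [map_mul, Complex.conj_ofReal]
      push_cast
      ring
    rw [h2, Complex.re_ofReal_mul]
  have hmean : Hs l E (fun v => ‖g v‖ ^ 2) Y := by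
    have h1 := h.hsSum S fun k hk => h.hsSum S fun k' hk' =>
      h.hsMul (h.ortho U hU χ hχ σ hσ (hirr k hk) (hirr k' hk')) (y k * y k')
    refine h1.congr (fun v => (hgg v).symm) ?_
    rw [hY]
    refine Finset.sum_congr rfl fun k hk => ?_
    rw [Finset.sum_eq_single k]
    · rw [if_pos ⟨Representation.Equiv.refl _⟩]
      ring
    · intro k' hk' hkk
      rw [if_neg (not_nonempty_iff.2 (hne k hk k' hk' (Ne.symm hkk))), mul_zero]
    · intro hk'
      exact absurd hk hk'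
  set a : ℝ := Real.sqrt Y with ha
  have ha0 : 0 < a := Real.sqrt_pos.2 h0
  have haa : a * a = Y := Real.mul_self_sqrt hY0
  have hL : Hs l E (fun v => T v * ∑ k ∈ S, y k * RR (χ k) 0 σ v) Y := by
    refine (h.hsSum S fun k hk => h.hsMul (hy k hk) (y k)).congr (fun v => ?_) ?_
    · rw [Finset.mul_sum]
      exact Finset.sum_congr rfl fun k _ => by ring
    · exact Finset.sum_congr rfl fun k _ => by ring
  have hR : Hs l E (fun v => s * ((1 / (2 * a)) * ‖g v‖ ^ 2 + a / 2 * 1)) (s * a) := by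
    refine (h.hsMul (h.hsAdd (h.hsMul hmean (1 / (2 * a))) (h.hsMul h.hsOne (a / 2))) s).congr
      (fun v => rfl) ?_
    rw [← haa]
    field_simp
    ring
  have hle : Y ≤ s * a := by
    refine Hs.le h hL hR fun v => ?_
    rw [hWg]
    have h1 : |(g v).re| ≤ ‖g v‖ := Complex.abs_re_le_norm _
    have h2 : ‖g v‖ ≤ (1 / (2 * a)) * ‖g v‖ ^ 2 + a / 2 * 1 := by
      have h3 : (1 / (2 * a)) * ‖g v‖ ^ 2 + a / 2 * 1 - ‖g v‖ =
          (1 / (2 * a)) * (‖g v‖ - a) ^ 2 := by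
        field_simp
        ring
      have h4 : 0 ≤ (1 / (2 * a)) * (‖g v‖ - a) ^ 2 := by positivity
      linarith
    calc T v * (g v).re ≤ |T v * (g v).re| := le_abs_self _
      _ = |T v| * |(g v).re| := abs_mul _ _
      _ ≤ s * ((1 / (2 * a)) * ‖g v‖ ^ 2 + a / 2 * 1) :=
        mul_le_mul (hT v) (h1.trans h2) (abs_nonneg _) hs
  have h5 : a ≤ s := by
    by_contra hcon
    push Not at hcon
    nlinarith
  nlinarith

end

end Pool.Agent.W353.SP
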