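import Pool.Agent.W353.SP.Defs

/-!
# Tauberian averages over all number fields: definitions

`X` is a smooth projective variety over a number field `K`, of dimension `d`, and `m` an integer,
`0 ≤ m ≤ d`; `χ` is an Artin representation of `K`, and `F ⊇ K` a number field in the algebraic closure.
-/

set_option autoImplicit false

namespace Pool.Agent.W353.SP

open NumberField IsDedekindDomain Filter Topology
open Pool.Agent.W353.EF (IsFrobenius)
open Pool.Agent.W353.TD (rank)
open Pool.Agent.W353.AT (IsArtin IsFrobeniusElement twistRank)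

section
variable {K : Type} [Field K] [NumberField K] {l : ℕ}

/-- At all primes `v` of `F` not in the finite set `R`, `b v` is the trace of the geometric Frobenius on
`H^i(X)`, the sum of its eigenvalues. -/
def IsTrace (X : Set (MvPolynomial (Fin l) (𝓞 K))) (d i N : ℕ) {F : Type} [Field F] [NumberField F]
    [Algebra K F] (R : Finset (HeightOneSpectrum (𝓞 F))) (b : HeightOneSpectrum (𝓞 F) → ℂ) : Prop :=
  ∀ v, v ∉ R → ∃ α : Fin N → ℂ, IsFrobenius X d i v α ∧ b v = ∑ j, α j

/-- At all primes `v` of `K` not in the finite set `R`, `b v` is the trace of the geometric Frobenius on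
`H^i(X) ⊗ χ`. -/
def IsTwistedTrace (X : Set (MvPolynomial (Fin l) (𝓞 K))) (d i N : ℕ) {n : ℕ}
    (χ : Representation ℂ Gal(AlgebraicClosure K/K) (Fin n → ℂ))
    (R : Finset (HeightOneSpectrum (𝓞 K))) (b : HeightOneSpectrum (𝓞 K) → ℂ) : Prop :=
  ∀ v, v ∉ R → ∃ α : Fin N → ℂ, IsFrobenius X d i v α ∧
    ∀ σ, IsFrobeniusElement v σ → b v = (∑ j, α j) * χ.character σ⁻¹

end

/-- The average `T⁻¹ ∑_{v ∉ R, q_v ≤ T} Re b(v) log(q_v) / q_v^m`. -/
noncomputable def average (m : ℕ) {F : Type} [Field F] [NumberField F]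
    (R : Finset (HeightOneSpectrum (𝓞 F))) (b : HeightOneSpectrum (𝓞 F) → ℂ) (T : ℕ) : ℝ :=
  (T : ℝ)⁻¹ * ∑ᶠ v ∈ {v : HeightOneSpectrum (𝓞 F) | v ∉ R ∧ Ideal.absNorm v.asIdeal ≤ T},
    (b v).re * Real.log (Ideal.absNorm v.asIdeal : ℝ) / (Ideal.absNorm v.asIdeal : ℝ) ^ m

section
variable {K : Type} [Field K] [NumberField K] {l : ℕ} {V : Type} [AddCommGroup V] [Module ℚ V]

/-- Let `s = N - dim V`.  Every sequence `T_j → ∞` has a subsequence along which the averages
`T⁻¹ ∑_{q_v ≤ T} b_v log(q_v) / q_v^m` converge, for the traces `b_v` on `H^{2m}(X)` at the primes of all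
number fields `F ⊇ K`, and for the traces on `H^{2m}(X) ⊗ χ` at the primes of `K`, for all Artin
representations `χ` of `K`.  Let `rank ρ F - δ F` and `twistRank ρ χ - y χ` be the limits; then `δ` and
`y` satisfy the laws of `Spectrum`. -/
def TauberianSpectrum (X : Set (MvPolynomial (Fin l) (𝓞 K))) (d m N : ℕ)
    (ρ : Representation ℚ Gal(AlgebraicClosure K/K) V) : Prop :=
  ∀ T : ℕ → ℕ, Tendsto T atTop atTop → ∃ φ : ℕ → ℕ, StrictMono φ ∧
    ∃ (δ : IntermediateField K (AlgebraicClosure K) → ℝ)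
      (y : ∀ n : ℕ, Representation ℂ Gal(AlgebraicClosure K/K) (Fin n → ℂ) → ℝ),
      (∀ (F : IntermediateField K (AlgebraicClosure K)) [NumberField F]
        (R : Finset (HeightOneSpectrum (𝓞 F))) (b : HeightOneSpectrum (𝓞 F) → ℂ),
        IsTrace X d (2 * m) N R b →
        Tendsto (fun j => average m R b (T (φ j))) atTop (𝓝 ((rank ρ F : ℝ) - δ F))) ∧
      (∀ (n : ℕ) (χ : Representation ℂ Gal(AlgebraicClosure K/K) (Fin n → ℂ)), IsArtin χ →
        ∀ (R : Finset (HeightOneSpectrum (𝓞 K))) (b : HeightOneSpectrum (𝓞 K) → ℂ),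
        IsTwistedTrace X d (2 * m) N χ R b →
        Tendsto (fun j => average m R b (T (φ j))) atTop (𝓝 ((twistRank ρ χ : ℝ) - y n χ))) ∧
      Spectrum K (N - Module.finrank ℚ V) δ y

end

end Pool.Agent.W353.SP
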