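import Pool.Agent.W353.SP.NatA
import Pool.Agent.W353.SP.Main
import Pool.Agent.W353.SP.NDefs

/-! Tauberian averages over all number fields: proofs. -/

set_option autoImplicit false

namespace Pool.Agent.W353.SP

open Complex Filter Topology NumberField IsDedekindDomain Polynomial
  Pool.Agent.W401.Cheb Pool.Agent.W540.BE Pool.Agent.W353.L1 Pool.Agent.W353.AT
open Pool.Agent.H126U (VX mem_VX)
open Pool.Agent.H126U.ST Pool.Agent.H126U.JT Pool.Agent.H126V.Taub
open Pool.Agent.W353.NF (act fixn fixn_le)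
open Pool.Agent.W353.TD (ch rank IsPart)
open Pool.Agent.W353.PV (tF Eig alp pick_spec)

section
variable {K : Type} [Field K] [NumberField K] {n : ℕ} {X : Set (MvPolynomial (Fin n) (𝓞 K))}
  {d m N : ℕ} {V : Type} [AddCommGroup V] [Module ℚ V] [FiniteDimensional ℚ V]
  {ρ : Representation ℚ (GK K) V}

/-- the average as a finite sum -/
theorem average_eq {F : Type} [Field F] [NumberField F] (R : Finset (HeightOneSpectrum (𝓞 F)))
    (b : HeightOneSpectrum (𝓞 F) → ℂ) (T : ℕ) :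
    average m R b T = LA R T fun v => (b v).re / (Ideal.absNorm v.asIdeal : ℝ) ^ m := by
  classical
  unfold average LA
  have h1 : {v : HeightOneSpectrum (𝓞 F) | v ∉ R ∧ Ideal.absNorm v.asIdeal ≤ T} =
      ((VS R T : Finset (HeightOneSpectrum (𝓞 F))) : Set (HeightOneSpectrum (𝓞 F))) := by
    ext v
    rw [Set.mem_ofPred_eq, Finset.mem_coe]
    unfold VS
    rw [Finset.mem_filter, mem_VX]
    exact ⟨fun h => ⟨h.2, h.1⟩, fun h => ⟨h.2, h.1⟩⟩
  rw [h1, finsum_mem_coe_finset, inv_mul_eq_div]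
  congr 1
  refine Finset.sum_congr rfl fun v _ => ?_
  rw [div_mul_eq_mul_div]
  rfl

/-- the trace in terms of the chosen eigenvalues -/
theorem trace_tF (hi : 2 * m ≤ 2 * d) {F : Type} [Field F] [NumberField F] [Algebra K F]
    {v : HeightOneSpectrum (𝓞 F)} {α : Fin N → ℂ} (hα : Eig X d (2 * m) v α) :
    (∑ j, α j) = (((Ideal.absNorm v.asIdeal : ℝ) ^ m * tF X d (2 * m) N F v : ℝ) : ℂ) := by
  have h3 : Eig X d (2 * m) v (alp X d (2 * m) N F v) := pick_spec ⟨α, hα⟩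
  have h4 := congrArg Multiset.sum (hα.unique' hi h3)
  change ∑ j, α j = ∑ j, alp X d (2 * m) N F v j at h4
  have hq : (1 : ℝ) < (Ideal.absNorm v.asIdeal : ℝ) := Pool.Agent.W353.PV.one_lt_norm v
  have hq0 : (0 : ℝ) < (Ideal.absNorm v.asIdeal : ℝ) := by linarith
  have hqC : (Ideal.absNorm v.asIdeal : ℂ) ≠ 0 := by
    exact_mod_cast hq0.ne'
  have htr : ((tF X d (2 * m) N F v : ℝ) : ℂ) = (∑ j, alp X d (2 * m) N F v j) *
      ((Ideal.absNorm v.asIdeal : ℕ) : ℂ) ^ (-((((2 * m : ℕ) : ℝ) / 2 : ℝ) : ℂ)) :=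
    tr_eq (w := ((2 * m : ℕ) : ℝ) / 2) (α := alp X d (2 * m) N F) (fun j => h3.norm j) (h3.im hi)
  have hpow : ((Ideal.absNorm v.asIdeal : ℕ) : ℂ) ^ (-((((2 * m : ℕ) : ℝ) / 2 : ℝ) : ℂ)) =
      ((Ideal.absNorm v.asIdeal : ℂ) ^ m)⁻¹ := by
    have e : ((((2 * m : ℕ) : ℝ) / 2 : ℝ) : ℂ) = (m : ℂ) := by push_cast; ring
    rw [e, Complex.cpow_neg, Complex.cpow_natCast]
  rw [Complex.ofReal_mul, htr, hpow, h4]
  push_cast
  have h7 : (Ideal.absNorm v.asIdeal : ℂ) ^ m ≠ 0 := pow_ne_zero _ hqC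
  field_simp

/-- **Tauberian averages over all number fields.** -/
theorem tauberianSpectrum (hmd : m ≤ d) (hpart : IsPart X d m N ρ) :
    TauberianSpectrum X d m N ρ := by
  classical
  intro T hT
  have hi : 2 * m ≤ 2 * d := by omega
  choose σ hσ using exists_isFrob (F := K)
  obtain ⟨φ, hφ, δF, δA, h1, h2, h3, h4, h5⟩ := spectralTate (mnN K) hmd hpart σ hσ hT
  have hT' : Tendsto (fun j => T (φ j)) atTop atTop := hT.comp hφ.tendsto_atTop
  refine ⟨φ, hφ, δF, fun k χ => δA ⟨k, χ⟩, ?_, ?_, to_spectrum h3 (fun x y hx hy hs => ?_) h4 h5⟩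
  · intro F _ R b hb
    have hφ1 : ∀ v, v ∉ R → (b v).re / (Ideal.absNorm v.asIdeal : ℝ) ^ m =
        tF X d (2 * m) N F v := by
      intro v hv
      obtain ⟨α, hα, hbv⟩ := hb v hv
      have hα' : Eig X d (2 * m) v α := hα
      have hq : (1 : ℝ) < (Ideal.absNorm v.asIdeal : ℝ) := Pool.Agent.W353.PV.one_lt_norm v
      have hq0 : (0 : ℝ) < (Ideal.absNorm v.asIdeal : ℝ) ^ m := by positivity
      rw [hbv, trace_tF hi hα', Complex.ofReal_re, mul_div_cancel_left₀ _ hq0.ne']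
    have h6 := LA_EN R (φ := fun v => (b v).re / (Ideal.absNorm v.asIdeal : ℝ) ^ m)
      (ψ := fun v => tF X d (2 * m) N F v) ⟨N, fun v => abs_tr_le _ _ _⟩ hφ1
    have h7 := EN_F (K := K) (F := F) (X := X) (d := d) (i := 2 * m) (N := N) σ hσ
    have h9 := ((h6.add h7).comp hT').add (h1 F).2
    rw [add_zero, zero_add] at h9
    refine h9.congr fun j => ?_
    rw [Function.comp_apply, average_eq]
    ring
  · intro k χ hχ R b hb
    have hφ1 : ∀ v, v ∉ R → (b v).re / (Ideal.absNorm v.asIdeal : ℝ) ^ m =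
        tF X d (2 * m) N K v * RR χ 0 σ v := by
      intro v hv
      obtain ⟨α, hα, hbv⟩ := hb v hv
      have hα' : Eig X d (2 * m) v α := hα
      have hq : (1 : ℝ) < (Ideal.absNorm v.asIdeal : ℝ) := Pool.Agent.W353.PV.one_lt_norm v
      have hq0 : (0 : ℝ) < (Ideal.absNorm v.asIdeal : ℝ) ^ m := by positivity
      rw [hbv (σ v) (hσ v), trace_tF hi hα', Complex.re_ofReal_mul, mul_assoc,
        mul_div_cancel_left₀ _ hq0.ne']
      unfold RR zz
      rw [Complex.ofReal_zero, zero_mul, neg_zero, Complex.cpow_zero, mul_one]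
    have hbd : Bd fun v => tF X d (2 * m) N K v * RR χ 0 σ v :=
      Bd.mul (f := fun v => tF X d (2 * m) N K v) (g := fun v => RR χ 0 σ v)
        ⟨N, fun v => abs_tr_le _ _ _⟩ (bd_RR (x := ⟨k, χ⟩) hχ σ)
    have h6 := LA_EN R (φ := fun v => (b v).re / (Ideal.absNorm v.asIdeal : ℝ) ^ m)
      (ψ := fun v => tF X d (2 * m) N K v * RR χ 0 σ v) hbd hφ1
    have h9 := (h6.comp hT').add (h2 ⟨k, χ⟩ hχ).2
    rw [zero_add] at h9
    refine h9.congr fun j => ?_
    rw [Function.comp_apply, average_eq, sub_add_cancel]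
  · have h6 := (h2 x hx).unique (h2 y hy) fun v => by rw [hs.RR]
    have h7 : twistRank ρ x.2 = twistRank ρ y.2 := by
      have h8 := ((mnN K).twMean ρ hpart.1 x hx σ hσ).unique
        ((mnN K).twMean ρ hpart.1 y hy σ hσ) fun v => by rw [hs.RR]
      exact_mod_cast h8
    rw [h7] at h6
    linarith

end

end Pool.Agent.W353.SP
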