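import Pool.Agent.W353.SP.Fam

/-! The spectral theorem for the mean values over all number fields. -/

set_option autoImplicit false

namespace Pool.Agent.W353.SP

open Complex Filter Topology ComplexConjugate NumberField IsDedekindDomain
  Pool.Agent.W401.Cheb Pool.Agent.W540.BE Pool.Agent.W353.L1 Pool.Agent.W353.AT
open Pool.Agent.W353.NF (act act_apply act_trans fixn fixn_conj fixn_inv ker_act_open fixn_le
  fixn_mul_ker)

section
variable {K : Type} [Field K] [NumberField K]

/-- the inverse limit: a rational representation has the same fixed vectors over `F` and `F ∩ M` -/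
theorem fixed_inf {U : Subgroup (GK K)} (hU : IsOpen (U : Set (GK K)))
    {M : IntermediateField K (AlgebraicClosure K)} (hM : M.fixingSubgroup = U)
    (F : IntermediateField K (AlgebraicClosure K)) (x : MRep (GK K)) (hx : ∀ u ∈ U, x.2 u = 1) :
    fixedDim x.2 F = fixedDim x.2 (F ⊓ M : IntermediateField K (AlgebraicClosure K)) := by
  have hclosed : ∀ H : Subgroup (GK K), IsOpen (H : Set (GK K)) →
      (IntermediateField.fixedField H).fixingSubgroup = H := fun H hH =>
    InfiniteGalois.fixingSubgroup_fixedField ⟨H, H.isClosed_of_isOpen hH⟩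
  have hMU : M = IntermediateField.fixedField U := by
    rw [← hM]
    exact (InfiniteGalois.fixedField_fixingSubgroup M).symm
  have key : invC x.2 F.fixingSubgroup = invC x.2 (F ⊓ M).fixingSubgroup := by
    apply le_antisymm
    · intro w hw
      let H : Subgroup (GK K) :=
        { carrier := {g | x.2 g w = w}
          one_mem' := by
            change x.2 1 w = w
            rw [map_one]; rfl
          mul_mem' := fun {g g'} hg hg' => by
            change x.2 (g * g') w = w
            rw [map_mul]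
            exact (congrArg (x.2 g) hg').trans hg
          inv_mem' := fun {g} hg => by
            change x.2 g⁻¹ w = w
            have h : x.2 g w = w := hg
            conv_lhs => rw [← h]
            have h3 : x.2 g⁻¹ * x.2 g = 1 := by rw [← map_mul, inv_mul_cancel, map_one]
            exact LinearMap.congr_fun h3 w }
      have hUH : U ≤ H := by
        intro u hu
        change x.2 u w = w
        rw [hx u hu]
        rfl
      have hFH : F.fixingSubgroup ≤ H := fun g hg => (mem_invC _ _ _).1 hw g hg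
      have hHo : IsOpen (H : Set (GK K)) := Subgroup.isOpen_mono hUH hU
      have h4 : IntermediateField.fixedField H ≤ F ⊓ M := by
        refine le_inf ?_ ?_
        · have h5 : IntermediateField.fixedField H ≤
              IntermediateField.fixedField F.fixingSubgroup := by
            intro z hz
            rw [IntermediateField.mem_fixedField_iff] at hz ⊢
            exact fun g hg => hz g (hFH hg)
          rwa [InfiniteGalois.fixedField_fixingSubgroup] at h5
        · rw [hMU]
          intro z hz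
          rw [IntermediateField.mem_fixedField_iff] at hz ⊢
          exact fun g hg => hz g (hUH hg)
      have h5 : (F ⊓ M).fixingSubgroup ≤ H := by
        rw [← hclosed H hHo]
        exact IntermediateField.fixingSubgroup_le h4
      rw [mem_invC]
      exact fun g hg => h5 hg
    · intro w hw
      rw [mem_invC] at hw ⊢
      exact fun g hg => hw g (IntermediateField.fixingSubgroup_le inf_le_left hg)
  have e : ∀ F' : IntermediateField K (AlgebraicClosure K),
      fixedDim x.2 F' = Module.finrank ℂ (invC x.2 F'.fixingSubgroup) := fun _ => rfl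
  rw [e, e, key]

/-- no fixed vectors -/
theorem fixed_zero {U : Subgroup (GK K)} [U.Normal]
    {M : IntermediateField K (AlgebraicClosure K)} (hM : M.fixingSubgroup = U)
    (x : MRep (GK K)) (hirr : x.2.IsIrreducible) (hx : ¬ ∀ u ∈ U, x.2 u = 1) :
    fixedDim x.2 M = 0 := by
  have hs : IsSimpleOrder (Subrepresentation x.2) := hirr
  let S : Subrepresentation x.2 := ⟨invC x.2 U, by
    intro g w hw
    rw [mem_invC] at hw ⊢
    intro u hu
    have h1 : x.2 u (x.2 g w) = x.2 g (x.2 (g⁻¹ * u * g) w) := by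
      have h2 : x.2 u * x.2 g = x.2 g * x.2 (g⁻¹ * u * g) := by
        rw [← map_mul, ← map_mul]
        congr 1
        group
      exact LinearMap.congr_fun h2 w
    rw [h1, hw _ (by
      have := (inferInstance : U.Normal).conj_mem u hu g⁻¹
      rwa [inv_inv] at this)]⟩
  have e : fixedDim x.2 M = Module.finrank ℂ (invC x.2 U) := by
    rw [← hM]
    rfl
  rw [e]
  rcases hs.eq_bot_or_eq_top S with h | h
  · have h1 : invC x.2 U = ⊥ := congrArg Subrepresentation.toSubmodule h
    rw [h1]
    exact finrank_bot ℂ _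
  · exfalso
    apply hx
    intro u hu
    have h1 : invC x.2 U = ⊤ := congrArg Subrepresentation.toSubmodule h
    refine LinearMap.ext fun w => ?_
    have h2 : w ∈ invC x.2 U := by
      rw [h1]
      trivial
    exact (mem_invC _ _ _).1 h2 u hu

/-- equivalent representations have the same kernel -/
theorem Sim_one {x y : MRep (GK K)} (h : Sim x y) {g : GK K} (hg : x.2 g = 1) : y.2 g = 1 := by
  obtain ⟨e⟩ := h
  have h1 := e.conj_apply_self g
  rw [← h1, hg]
  exact LinearEquiv.conj_id _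

variable {ι : Type} {l : Filter ι} {E : ι → (HeightOneSpectrum (𝓞 K) → ℝ) → ℝ}
  {σ : HeightOneSpectrum (𝓞 K) → GK K} {T : HeightOneSpectrum (𝓞 K) → ℝ} {s : ℝ}

/-- **The spectral theorem.** -/
theorem spectral [l.NeBot] (h : Mn l E) (hσ : ∀ v, IsFrob v (σ v)) (hs : 0 ≤ s)
    (hT : ∀ v, |T v| ≤ s)
    (hconv : ∀ U : Subgroup (GK K), IsOpen (U : Set (GK K)) →
      ∀ f : GK K → ℝ, (∀ g, ∀ u ∈ U, f (g * u) = f g) →
      ∃ m : ℝ, Hs l E (fun v => T v * f (σ v)) m) :
    ∃ (zF : IntermediateField K (AlgebraicClosure K) → ℝ) (zA : MRep (GK K) → ℝ),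
      (∀ (F : IntermediateField K (AlgebraicClosure K)) [NumberField F],
        Hs l E (fun v => T v * fixn K F (σ v)) (zF F)) ∧
      (∀ x, IsArtin x.2 → Hs l E (fun v => T v * RR x.2 0 σ v) (zA x)) ∧
      (∀ S : Finset (MRep (GK K)), (∀ p ∈ S, Irr p) →
        (∀ p ∈ S, ∀ q ∈ S, p ≠ q → ¬ Sim p q) → ∑ p ∈ S, (zA p) ^ 2 ≤ s ^ 2) ∧
      (∀ (F : IntermediateField K (AlgebraicClosure K)) [NumberField F],
        ∃ S : Finset (MRep (GK K)), (∀ p ∈ S, Irr p) ∧
          (∀ p ∈ S, ∀ q ∈ S, p ≠ q → ¬ Sim p q) ∧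
          (∀ x, Irr x → (∀ p ∈ S, ¬ Sim x p) → fixedDim x.2 F = 0) ∧
          zF F = ∑ p ∈ S, zA p * fixedDim p.2 F) ∧
      (∀ (c : ℕ) (η : ℝ), 0 < η → ∃ M : IntermediateField K (AlgebraicClosure K),
        FiniteDimensional K M ∧ IsGalois K M ∧
        ∀ (F : IntermediateField K (AlgebraicClosure K)) [NumberField F],
          Module.finrank K F ≤ c → |zF F - zF (F ⊓ M)| < η) := by
  classical
  -- the mean values for number fields
  have h1 : ∀ F : IntermediateField K (AlgebraicClosure K), ∃ z : ℝ, ∀ [NumberField F],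
      Hs l E (fun v => T v * fixn K F (σ v)) z := by
    intro F
    by_cases hF : NumberField F
    · obtain ⟨m, hm⟩ := hconv (act K F).ker (ker_act_open K F) (fun g => fixn K F g)
        (fun g u hu => by rw [fixn_mul_ker K F g u ((MonoidHom.mem_ker).1 hu)])
      refine ⟨m, ?_⟩
      intro hF'
      exact hm
    · refine ⟨0, ?_⟩
      intro hF'
      exact absurd hF' hF
  choose zF hzF using h1
  have h2 : ∀ x : MRep (GK K), ∃ z : ℝ, IsArtin x.2 → Hs l E (fun v => T v * RR x.2 0 σ v) z := by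
    intro x
    by_cases hx : IsArtin x.2
    · obtain ⟨W, hWn, hW, hyW⟩ := exists_common (κ := Unit) (n := fun _ => x.1)
        (fun _ => x.2) fun _ => hx
      obtain ⟨m, hm⟩ := hconv W hW (fun g => (x.2.character g⁻¹).re) (fun g u hu => by
        have e : x.2 (g * u)⁻¹ = x.2 g⁻¹ := by
          rw [mul_inv_rev, map_mul, hyW () u⁻¹ (W.inv_mem hu), one_mul]
        change (x.2.character (g * u)⁻¹).re = (x.2.character g⁻¹).re
        unfold Representation.character
        rw [e])
      refine ⟨m, fun _ => hm.congr (fun v => ?_) rfl⟩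
      unfold RR zz
      rw [Complex.ofReal_zero, zero_mul, neg_zero, Complex.cpow_zero, mul_one]
    · exact ⟨0, fun h => absurd h hx⟩
  choose zA hzA using h2
  have hcong : ∀ x y, Irr x → Irr y → Sim x y → zA x = zA y := by
    intro x y hx hy hs
    refine (hzA x hx.1).unique (hzA y hy.1) fun v => ?_
    rw [hs.RR]
  -- Bessel
  have hB : ∀ S : Finset (MRep (GK K)), (∀ p ∈ S, Irr p) →
      (∀ p ∈ S, ∀ q ∈ S, p ≠ q → ¬ Sim p q) → ∑ p ∈ S, (zA p) ^ 2 ≤ s ^ 2 := by
    intro S hS1 hS2
    obtain ⟨U, hUn, hU, hρ⟩ := exists_common (κ := S) (n := fun k => k.1.1)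
      (fun k => k.1.2) fun k => (hS1 k.1 k.2).1
    have hfin : Finite (GK K ⧸ U) := Subgroup.quotient_finite_of_isOpen U hU
    have h3 := h.bessel U hU (κ := S) Finset.univ (n := fun k => k.1.1) (fun k => k.1.2) hρ σ hσ
      hs hT (fun k _ => (hS1 k.1 k.2).2) (fun k _ k' _ hkk => not_nonempty_iff.1
        (hS2 k.1 k.2 k'.1 k'.2 fun h => hkk (Subtype.ext h)))
      (y := fun k => zA k.1) (fun k _ => hzA k.1 (hS1 k.1 k.2).1)
    rwa [Finset.sum_coe_sort S (fun p => (zA p) ^ 2)] at h3
  -- the formula for a list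
  have hlist : ∀ (F : IntermediateField K (AlgebraicClosure K)) [NumberField F]
      (L : List (MRep (GK K))), (∀ x ∈ L, Irr x) →
      (∀ g, (fixn K F g : ℂ) = (L.map fun x => x.2.character g).sum) →
      zF F = (L.map zA).sum := by
    intro F _ L hL hfix
    have h3 : ∀ L' : List (MRep (GK K)), (∀ x ∈ L', Irr x) →
        Hs l E (fun v => T v * (L'.map fun x => RR x.2 0 σ v).sum) (L'.map zA).sum := by
      intro L' hL'
      induction L' with
      | nil => exact h.hsZero.congr (fun v => by simp) (by simp)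
      | cons x L' ih =>
        refine (h.hsAdd (hzA x (hL' x List.mem_cons_self).1)
          (ih fun y hy => hL' y (List.mem_cons_of_mem _ hy))).congr (fun v => ?_) ?_
        · rw [List.map_cons, List.sum_cons, mul_add]
        · rw [List.map_cons, List.sum_cons]
    refine (hzF F).unique (h3 L hL) fun v => ?_
    congr 1
    have e1 : ∀ L' : List (MRep (GK K)), (L'.map fun x => RR x.2 0 σ v).sum =
        ((L'.map fun x : MRep (GK K) => x.2.character (σ v)⁻¹).sum).re := by
      intro L'
      induction L' with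
      | nil => simp
      | cons x L' ih =>
        rw [List.map_cons, List.sum_cons, ih, List.map_cons, List.sum_cons, Complex.add_re]
        congr 1
        unfold RR zz
        rw [Complex.ofReal_zero, zero_mul, neg_zero, Complex.cpow_zero, mul_one]
    rw [e1, ← hfix, fixn_inv, Complex.natCast_re]
  -- the formula for an arbitrary covering family
  have hform : ∀ (F : IntermediateField K (AlgebraicClosure K)) [NumberField F]
      (S : Finset (MRep (GK K))), (∀ p ∈ S, Irr p) → (∀ p ∈ S, ∀ q ∈ S, p ≠ q → ¬ Sim p q) →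
      (∀ x, Irr x → (∀ p ∈ S, ¬ Sim x p) → fixedDim x.2 F = 0) →
      zF F = ∑ p ∈ S, zA p * fixedDim p.2 F := by
    intro F _ S hS1 hS2 hS3
    obtain ⟨U, L, S', hUn, hU, hF, hL, hfix, hm, -, -, -⟩ := exists_fam F
    have hL' : ∀ x ∈ L, Irr x := fun x hx => (hL x hx).1
    rw [hlist F L hL' hfix, list_fam (P := Irr) (fun x y hx hy hs => hcong x y hx hy hs) hS1 hS2 L
      hL' fun x hx => ?_]
    · exact Finset.sum_congr rfl fun p hp => by rw [hm p (hS1 p hp)]
    · by_contra hcon
      push Not at hcon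
      have h3 := hS3 x (hL' x hx) hcon
      rw [← hm x (hL' x hx)] at h3
      exact mult_ne_zero hx h3
  -- the families
  have hfam : ∀ (F : IntermediateField K (AlgebraicClosure K)) [NumberField F],
      ∃ S : Finset (MRep (GK K)), (∀ p ∈ S, Irr p) ∧
        (∀ p ∈ S, ∀ q ∈ S, p ≠ q → ¬ Sim p q) ∧
        (∀ x, Irr x → (∀ p ∈ S, ¬ Sim x p) → fixedDim x.2 F = 0) ∧
        ∑ p ∈ S, (fixedDim p.2 F : ℝ) ^ 2 ≤ Module.finrank K F := by
    intro F _
    obtain ⟨U, L, S, hUn, hU, hF, hL, hfix, hm, hS1, hS2, hS3⟩ := exists_fam F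
    refine ⟨S, fun p hp => (hL p (hS1 p hp)).1, hS2, fun x hx hxS => ?_,
      sum_sq_le F (fun x hx => (hL x hx).1) hfix hm hS1 hS2 hS3⟩
    by_contra hne
    rw [← hm x hx] at hne
    obtain ⟨y, hy, hyx⟩ := mult_pos hne
    obtain ⟨p, hp, hyp⟩ := hS3 y hy
    exact hxS p hp (hyx.symm.trans hyp)
  refine ⟨zF, zA, fun F _ => hzF F, hzA, hB, fun F _ => ?_, fun c η hη => ?_⟩
  · obtain ⟨S, h3, h4, h5, -⟩ := hfam F
    exact ⟨S, h3, h4, h5, hform F S h3 h4 h5⟩
  -- one governing field
  set Q : Set ℝ := {q | ∃ S : Finset (MRep (GK K)), (∀ p ∈ S, Irr p) ∧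
    (∀ p ∈ S, ∀ q ∈ S, p ≠ q → ¬ Sim p q) ∧ ∑ p ∈ S, (zA p) ^ 2 = q} with hQ
  have hQne : Q.Nonempty := ⟨0, ∅, fun p hp => absurd hp (Finset.notMem_empty _),
    fun p hp => absurd hp (Finset.notMem_empty _), Finset.sum_empty⟩
  have hQb : BddAbove Q := by
    refine ⟨s ^ 2, ?_⟩
    rintro q ⟨S, h3, h4, rfl⟩
    exact hB S h3 h4
  set θ : ℝ := η ^ 2 / (c + 1) with hθ
  have hθ0 : 0 < θ := by positivity
  obtain ⟨q₀, ⟨S₀, h3, h4, rfl⟩, hq₀⟩ := exists_lt_of_lt_csSup hQne
    (show sSup Q - θ < sSup Q by linarith)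
  obtain ⟨U, hUn, hU, hρ⟩ := exists_common (κ := S₀) (n := fun k => k.1.1)
    (fun k => k.1.2) fun k => (h3 k.1 k.2).1
  set M : IntermediateField K (AlgebraicClosure K) := IntermediateField.fixedField U with hM
  have hMU : M.fixingSubgroup = U :=
    InfiniteGalois.fixingSubgroup_fixedField ⟨U, U.isClosed_of_isOpen hU⟩
  have hMf : FiniteDimensional K M ∧ IsGalois K M := by
    rw [← InfiniteGalois.isOpen_and_normal_iff_finite_and_isGalois, hMU]
    exact ⟨hU, hUn⟩
  refine ⟨M, hMf.1, hMf.2, fun F _ hdeg => ?_⟩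
  obtain ⟨S, hS1, hS2, hS3, hS4⟩ := hfam F
  have hfd : FiniteDimensional K M := hMf.1
  have hle : F ⊓ M ≤ M := inf_le_right
  have hfd' : FiniteDimensional K (F ⊓ M : IntermediateField K (AlgebraicClosure K)) :=
    FiniteDimensional.of_injective (IntermediateField.inclusion hle).toLinearMap
      (IntermediateField.inclusion_injective hle)
  have hnf : NumberField (F ⊓ M : IntermediateField K (AlgebraicClosure K)) :=
    NumberField.of_module_finite K _
  have hS5 : ∀ x, Irr x → (∀ p ∈ S, ¬ Sim x p) →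
      fixedDim x.2 (F ⊓ M : IntermediateField K (AlgebraicClosure K)) = 0 := by
    intro x hx hxS
    have h5 := hS3 x hx hxS
    have h6 := fixedDim_mono x.2 (inf_le_left : F ⊓ M ≤ F)
    omega
  set B : Finset (MRep (GK K)) := S.filter fun p => ¬ ∀ u ∈ U, p.2 u = 1 with hBd
  have hdiff : zF F - zF (F ⊓ M) = ∑ p ∈ B, zA p * fixedDim p.2 F := by
    rw [hform F S hS1 hS2 hS3, hform (F ⊓ M) S hS1 hS2 hS5, ← Finset.sum_sub_distrib, hBd,
      Finset.sum_filter]
    refine Finset.sum_congr rfl fun p hp => ?_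
    by_cases hpU : ∀ u ∈ U, p.2 u = 1
    · rw [if_neg (not_not.2 hpU), fixed_inf hU hMU F p hpU, sub_self]
    · rw [if_pos hpU]
      have h5 := fixed_zero hMU p (hS1 p hp).2 hpU
      have h6 := fixedDim_mono p.2 (inf_le_right : F ⊓ M ≤ M)
      have h7 : fixedDim p.2 (F ⊓ M : IntermediateField K (AlgebraicClosure K)) = 0 := by omega
      rw [h7, Nat.cast_zero, mul_zero, sub_zero]
  have hBS : ∀ p ∈ B, p ∈ S := fun p hp => (Finset.mem_filter.1 hp).1
  have hS₀U : ∀ p ∈ S₀, ∀ u ∈ U, p.2 u = 1 := fun p hp u hu => hρ ⟨p, hp⟩ u hu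
  have hcross : ∀ p ∈ S₀, ∀ q ∈ B, ¬ Sim p q := fun p hp q hq hs =>
    (Finset.mem_filter.1 hq).2 fun u hu => Sim_one hs (hS₀U p hp u hu)
  have hdisj : Disjoint S₀ B := by
    rw [Finset.disjoint_left]
    intro p hp hpB
    exact hcross p hp p hpB (Sim.refl p)
  have hsum : ∑ p ∈ S₀, (zA p) ^ 2 + ∑ p ∈ B, (zA p) ^ 2 ≤ sSup Q := by
    rw [← Finset.sum_union hdisj]
    refine le_csSup hQb ⟨S₀ ∪ B, fun p hp => ?_, fun p hp q hq hpq => ?_, rfl⟩
    · rcases Finset.mem_union.1 hp with hp | hp
      · exact h3 p hp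
      · exact hS1 p (hBS p hp)
    · rcases Finset.mem_union.1 hp with hp' | hp'
      · rcases Finset.mem_union.1 hq with hq' | hq'
        · exact h4 p hp' q hq' hpq
        · exact hcross p hp' q hq'
      · rcases Finset.mem_union.1 hq with hq' | hq'
        · exact fun hs => hcross q hq' p hp' hs.symm
        · exact hS2 p (hBS p hp') q (hBS q hq') hpq
  have hBθ : ∑ p ∈ B, (zA p) ^ 2 ≤ θ := by linarith
  have hm : ∑ p ∈ B, (fixedDim p.2 F : ℝ) ^ 2 ≤ c := by
    have h5 : ∑ p ∈ B, (fixedDim p.2 F : ℝ) ^ 2 ≤ ∑ p ∈ S, (fixedDim p.2 F : ℝ) ^ 2 :=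
      Finset.sum_le_sum_of_subset_of_nonneg (Finset.filter_subset _ _) fun _ _ _ => sq_nonneg _
    have h6 : (Module.finrank K F : ℝ) ≤ c := by exact_mod_cast hdeg
    exact (h5.trans hS4).trans h6
  rw [hdiff]
  refine abs_lt_of_sq_lt_sq ?_ hη.le
  have h5 := Finset.sum_mul_sq_le_sq_mul_sq B zA fun p => (fixedDim p.2 F : ℝ)
  have h6 : (∑ p ∈ B, (zA p) ^ 2) * ∑ p ∈ B, (fixedDim p.2 F : ℝ) ^ 2 ≤ θ * c :=
    mul_le_mul hBθ hm (Finset.sum_nonneg fun _ _ => sq_nonneg _) hθ0.le
  have h7 : θ * c < η ^ 2 := by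
    rw [hθ, div_mul_eq_mul_div, div_lt_iff₀ (by positivity)]
    have : 0 < η ^ 2 := by positivity
    nlinarith
  linarith

end

end Pool.Agent.W353.SP
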