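import Pool.Agent.W353.SP.Tw

/-! Convergence along subsequences for all finite levels at once. -/

set_option autoImplicit false

namespace Pool.Agent.W353.SP

open Complex Filter Topology ComplexConjugate NumberField IsDedekindDomain
  Pool.Agent.W401.Cheb Pool.Agent.W540.BE Pool.Agent.W353.L1 Pool.Agent.W353.AT

theorem bounded_seq {a : ℕ → ℝ} {C : ℝ} (h : ∀ᶠ n in atTop, |a n| ≤ C) :
    ∃ C' : ℝ, ∀ n, |a n| ≤ C' := by
  obtain ⟨m, hm⟩ := eventually_atTop.1 h
  refine ⟨|C| + ∑ k ∈ Finset.range m, |a k|, fun n => ?_⟩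
  have hs : 0 ≤ ∑ k ∈ Finset.range m, |a k| := Finset.sum_nonneg fun _ _ => abs_nonneg _
  by_cases hn : m ≤ n
  · have h1 := hm n hn
    have h2 := le_abs_self C
    linarith
  · push Not at hn
    have h2 := Finset.single_le_sum (f := fun k => |a k|) (fun _ _ => abs_nonneg _)
      (Finset.mem_range.2 hn)
    have h3 := abs_nonneg C
    linarith

/-- the diagonal argument -/
theorem diag {I : Type} [Countable I] (a : I → ℕ → ℝ)
    (h : ∀ i, ∃ C : ℝ, ∀ᶠ n in atTop, |a i n| ≤ C) :
    ∃ φ : ℕ → ℕ, StrictMono φ ∧ ∃ ρ : I → ℝ,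
      ∀ i, Tendsto (fun m => a i (φ m)) atTop (𝓝 (ρ i)) := by
  classical
  have h1 : ∀ i, ∃ C : ℝ, ∀ n, |a i n| ≤ C := fun i => by
    obtain ⟨C, hC⟩ := h i
    exact bounded_seq hC
  choose C hC using h1
  have hK : IsCompact (Set.univ.pi fun i : I => Set.Icc (-(C i)) (C i)) :=
    isCompact_univ_pi fun i => isCompact_Icc
  obtain ⟨ρ, _, φ, hφ, hlim⟩ := hK.tendsto_subseq (x := fun m i => a i m)
    (fun m i _ => abs_le.1 (hC i m))
  exact ⟨φ, hφ, ρ, fun i => (tendsto_pi_nhds.1 hlim) i⟩

section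
variable {K : Type} [Field K] [NumberField K]

theorem countable_alg : Countable (AlgebraicClosure K) := by
  have h0 : Countable K := by
    have h : Module.Finite ℚ K := inferInstance
    let b := Module.finBasis ℚ K
    exact b.equivFun.toEquiv.countable_iff.2 inferInstance
  have h := Algebra.IsAlgebraic.cardinalMk_le_max K (AlgebraicClosure K)
  have h1 : Cardinal.mk K ≤ Cardinal.aleph0 := Cardinal.mk_le_aleph0_iff.2 inferInstance
  rw [← Cardinal.mk_le_aleph0_iff]
  exact h.trans (max_le h1 le_rfl)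

theorem countable_fields : Countable {F : IntermediateField K (AlgebraicClosure K) //
    FiniteDimensional K F} := by
  have := countable_alg (K := K)
  let g : Finset (AlgebraicClosure K) → IntermediateField K (AlgebraicClosure K) := fun s =>
    IntermediateField.adjoin K s
  have h1 : (Set.range g).Countable := Set.countable_range g
  have h2 : {F : IntermediateField K (AlgebraicClosure K) | FiniteDimensional K F} ⊆
      Set.range g := by
    intro F hF
    have hF' : FiniteDimensional K F := hF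
    have h3 : Algebra.EssFiniteType K F := inferInstance
    obtain ⟨s, hs⟩ := IntermediateField.essFiniteType_iff.1 h3
    exact ⟨s, hs⟩
  exact (h1.mono h2).to_subtype

variable {ι : Type} {l : Filter ι} {E : ι → (HeightOneSpectrum (𝓞 K) → ℝ) → ℝ}

/-- **A subsequence along which all mean values converge.** -/
theorem exists_sub (h : Mn l E) (σ : HeightOneSpectrum (𝓞 K) → GK K)
    {T : HeightOneSpectrum (𝓞 K) → ℝ} (hT : Bd T) {z : ℕ → ι} (hz : Tendsto z atTop l) :
    ∃ φ : ℕ → ℕ, StrictMono φ ∧ ∀ U : Subgroup (GK K), IsOpen (U : Set (GK K)) →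
      ∀ f : GK K → ℝ, (∀ g, ∀ u ∈ U, f (g * u) = f g) →
      ∃ m : ℝ, Hs atTop (fun n => E (z (φ n))) (fun v => T v * f (σ v)) m := by
  classical
  let I : Type := Σ M : {M : IntermediateField K (AlgebraicClosure K) // FiniteDimensional K M},
    GK K ⧸ M.1.fixingSubgroup
  have hfinq : ∀ M : {M : IntermediateField K (AlgebraicClosure K) // FiniteDimensional K M},
      Finite (GK K ⧸ M.1.fixingSubgroup) := by
    intro M
    have := M.2
    exact Subgroup.quotient_finite_of_isOpen _ (IntermediateField.fixingSubgroup_isOpen M.1)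
  have hc := countable_fields (K := K)
  have hI : Countable I := by
    have : ∀ M : {M : IntermediateField K (AlgebraicClosure K) // FiniteDimensional K M},
      Countable (GK K ⧸ M.1.fixingSubgroup) := fun M => by
        have := hfinq M
        infer_instance
    infer_instance
  let e : I → HeightOneSpectrum (𝓞 K) → ℝ := fun i v =>
    if (QuotientGroup.mk (σ v) : GK K ⧸ i.1.1.fixingSubgroup) = i.2 then 1 else 0
  have he : ∀ i, Bd (e i) := fun i => ⟨1, fun v => by
    change |if (QuotientGroup.mk (σ v) : GK K ⧸ i.1.1.fixingSubgroup) = i.2 then (1 : ℝ)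
      else 0| ≤ 1
    split_ifs <;> simp⟩
  have hM := h.comp hz
  obtain ⟨φ, hφ, ρ, hρ⟩ := diag (fun (i : I) n => E (z n) fun v => T v * e i v) (fun i => by
    obtain ⟨B, hB⟩ := hT.mul (he i)
    exact ⟨2 * |B|, hM.bound hB⟩)
  refine ⟨φ, hφ, fun U hU f hf => ?_⟩
  have hM' : Mn atTop fun n => E (z (φ n)) := h.comp (hz.comp hφ.tendsto_atTop)
  set M : IntermediateField K (AlgebraicClosure K) := IntermediateField.fixedField U with hMd
  have h1 : M.fixingSubgroup = U :=
    InfiniteGalois.fixingSubgroup_fixedField ⟨U, U.isClosed_of_isOpen hU⟩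
  have h2 : FiniteDimensional K M := by
    rw [← InfiniteGalois.isOpen_iff_finite, h1]
    exact hU
  have hq := hfinq ⟨M, h2⟩
  let _ : Fintype (GK K ⧸ M.fixingSubgroup) := Fintype.ofFinite _
  refine ⟨∑ q : GK K ⧸ M.fixingSubgroup, f q.out * ρ ⟨⟨M, h2⟩, q⟩, ?_⟩
  have h3 : ∀ q : GK K ⧸ M.fixingSubgroup, Hs atTop (fun n => E (z (φ n)))
      (fun v => T v * e ⟨⟨M, h2⟩, q⟩ v) (ρ ⟨⟨M, h2⟩, q⟩) := fun q =>
    ⟨hT.mul (he _), hρ ⟨⟨M, h2⟩, q⟩⟩
  refine (hM'.hsSum Finset.univ fun q _ => hM'.hsMul (h3 q) (f q.out)).congr (fun v => ?_) rfl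
  have h4 : ∀ q : GK K ⧸ M.fixingSubgroup, f q.out * (T v * e ⟨⟨M, h2⟩, q⟩ v) =
      if (QuotientGroup.mk (σ v) : GK K ⧸ M.fixingSubgroup) = q then T v * f (σ v) else 0 := by
    intro q
    change f q.out * (T v * (if (QuotientGroup.mk (σ v) : GK K ⧸ M.fixingSubgroup) = q
      then 1 else 0)) = _
    by_cases hqv : (QuotientGroup.mk (σ v) : GK K ⧸ M.fixingSubgroup) = q
    · rw [if_pos hqv, if_pos hqv, mul_one, mul_comm, ← hqv]
      obtain ⟨u, hu⟩ := QuotientGroup.mk_out_eq_mul M.fixingSubgroup (σ v)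
      rw [hu, hf (σ v) u (by rw [← h1]; exact u.2)]
    · rw [if_neg hqv, if_neg hqv, mul_zero, mul_zero]
  rw [Finset.sum_congr rfl fun q _ => h4 q, Finset.sum_ite_eq, if_pos (Finset.mem_univ _)]

end

end Pool.Agent.W353.SP
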