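import Pool.Agent.W353.SP.Spec

/-! The spectral theorem for the defects. -/

set_option autoImplicit false

namespace Pool.Agent.W353.SP

open Complex Filter Topology ComplexConjugate NumberField IsDedekindDomain
  Pool.Agent.W401.Cheb Pool.Agent.W540.BE Pool.Agent.W353.L1 Pool.Agent.W353.AT
open Pool.Agent.W353.NF (act fixn fixn_le)
open Pool.Agent.W353.TD (ch rank IsPart tF_sub_le)
open Pool.Agent.W353.PV (tF)

section
variable {K : Type} [Field K] [NumberField K] {ι : Type} {l : Filter ι}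
  {E : ι → (HeightOneSpectrum (𝓞 K) → ℝ) → ℝ} {n : ℕ} {X : Set (MvPolynomial (Fin n) (𝓞 K))}
  {d m N : ℕ} {V : Type} [AddCommGroup V] [Module ℚ V] [FiniteDimensional ℚ V]
  {ρ : Representation ℚ (GK K) V}

theorem bd_fixn {F : Type} [Field F] [NumberField F] [Algebra K F]
    (σ : HeightOneSpectrum (𝓞 K) → GK K) : Bd fun v => (fixn K F (σ v) : ℝ) :=
  ⟨Module.finrank ℚ F, fun v => by
    rw [abs_of_nonneg (Nat.cast_nonneg _)]
    exact fixn_le _⟩

theorem bd_RR {x : MRep (GK K)} (hx : IsArtin x.2) (σ : HeightOneSpectrum (𝓞 K) → GK K) :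
    Bd fun v => RR x.2 0 σ v := by
  obtain ⟨U, hUn, hU, hx1⟩ := exists_common (κ := Unit) (n := fun _ => x.1)
    (fun _ => x.2) fun _ => hx
  have hfin : Finite (GK K ⧸ U) := Subgroup.quotient_finite_of_isOpen U hU
  exact ⟨x.1, fun v => abs_RR_le U x.2 (hx1 ()) _ _ _⟩

/-- **The spectral theorem for the defects.** -/
theorem spectralTate (h : Mn l E) (hmd : m ≤ d) (hpart : IsPart X d m N ρ)
    (σ : HeightOneSpectrum (𝓞 K) → GK K) (hσ : ∀ v, IsFrob v (σ v)) {z : ℕ → ι}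
    (hz : Tendsto z atTop l) :
    ∃ φ : ℕ → ℕ, StrictMono φ ∧
      ∃ (δF : IntermediateField K (AlgebraicClosure K) → ℝ) (δA : MRep (GK K) → ℝ),
      (∀ (F : IntermediateField K (AlgebraicClosure K)) [NumberField F],
        Hs atTop (fun j => E (z (φ j))) (fun v => tF X d (2 * m) N K v * fixn K F (σ v))
          (rank ρ F - δF F)) ∧
      (∀ x, IsArtin x.2 → Hs atTop (fun j => E (z (φ j)))
        (fun v => tF X d (2 * m) N K v * RR x.2 0 σ v) (twistRank ρ x.2 - δA x)) ∧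
      (∀ S : Finset (MRep (GK K)), (∀ p ∈ S, Irr p) →
        (∀ p ∈ S, ∀ q ∈ S, p ≠ q → ¬ Sim p q) →
        ∑ p ∈ S, (δA p) ^ 2 ≤ ((N - Module.finrank ℚ V : ℕ) : ℝ) ^ 2) ∧
      (∀ (F : IntermediateField K (AlgebraicClosure K)) [NumberField F],
        ∃ S : Finset (MRep (GK K)), (∀ p ∈ S, Irr p) ∧
          (∀ p ∈ S, ∀ q ∈ S, p ≠ q → ¬ Sim p q) ∧
          (∀ x, Irr x → (∀ p ∈ S, ¬ Sim x p) → fixedDim x.2 F = 0) ∧
          δF F = ∑ p ∈ S, δA p * fixedDim p.2 F) ∧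
      (∀ (c : ℕ) (η : ℝ), 0 < η → ∃ M : IntermediateField K (AlgebraicClosure K),
        FiniteDimensional K M ∧ IsGalois K M ∧
        ∀ (F : IntermediateField K (AlgebraicClosure K)) [NumberField F],
          Module.finrank K F ≤ c → |δF F - δF (F ⊓ M)| < η) := by
  classical
  have hi : 2 * m ≤ 2 * d := by omega
  set s : ℕ := N - Module.finrank ℚ V with hs
  obtain ⟨hρ, hV⟩ := hpart
  have hgood : ∀ᶠ v in cofinite, |tF X d (2 * m) N K v - ch ρ (σ v)⁻¹| ≤ s := by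
    refine hV.mono fun v hv => ?_
    obtain ⟨α, h1, h2⟩ := hv (σ v) (hσ v)
    exact tF_sub_le (ρ := ρ) hi (σ := σ v) h1 h2
  have hbad : {v | ¬ |tF X d (2 * m) N K v - ch ρ (σ v)⁻¹| ≤ s}.Finite := by
    rwa [Filter.eventually_cofinite] at hgood
  have hT : ∀ v, |tC ρ X d (2 * m) N s σ v| ≤ (s : ℝ) := fun v => abs_tC _ _ _ _ _ _ _ _
  have hTF : Bd fun v => tF X d (2 * m) N K v := ⟨N, fun v => abs_tr_le _ _ _⟩
  obtain ⟨φ, hφ, hconv⟩ := exists_sub h σ (T := tC ρ X d (2 * m) N s σ) ⟨s, hT⟩ hz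
  have h' : Mn atTop fun j => E (z (φ j)) := h.comp (hz.comp hφ.tendsto_atTop)
  obtain ⟨zF, zA, h1, h2, h3, h4, h5⟩ := spectral h' hσ (Nat.cast_nonneg s) hT hconv
  -- from the complement to the whole cohomology
  have key : ∀ (g : HeightOneSpectrum (𝓞 K) → ℝ) (a b : ℝ), Bd g →
      Hs atTop (fun j => E (z (φ j))) (fun v => tC ρ X d (2 * m) N s σ v * g v) a →
      Hs atTop (fun j => E (z (φ j))) (fun v => ch ρ (σ v)⁻¹ * g v) b →
      Hs atTop (fun j => E (z (φ j))) (fun v => tF X d (2 * m) N K v * g v) (b + a) := by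
    intro g a b hg ha hb
    have hψ : Hs atTop (fun j => E (z (φ j))) (fun v => tF X d (2 * m) N K v * g v +
        ((-1) * (tC ρ X d (2 * m) N s σ v * g v) + (-1) * (ch ρ (σ v)⁻¹ * g v))) 0 := by
      refine h'.hsFin ((hTF.mul hg).add (((Bd.const (-1)).mul ha.1).add
        ((Bd.const (-1)).mul hb.1))) (hbad.subset fun v hv => ?_)
      by_contra hcon
      rw [Set.mem_ofPred_eq, not_not] at hcon
      apply hv
      have e : tC ρ X d (2 * m) N s σ v = tF X d (2 * m) N K v - ch ρ (σ v)⁻¹ := by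
        unfold tC
        rw [if_pos hcon]
      rw [e]
      ring
    exact (h'.hsAdd hψ (h'.hsAdd hb ha)).congr (fun v => by ring) (by ring)
  refine ⟨φ, hφ, fun F => -zF F, fun x => -zA x, fun F _ => ?_, fun x hx => ?_,
    fun S hS1 hS2 => ?_, fun F _ => ?_, fun c η hη => ?_⟩
  · have h6 := h'.fixMean ρ hρ F.val σ hσ
    refine (key _ _ _ (bd_fixn σ) (h1 F) h6).congr (fun v => rfl) ?_
    have hr : rank ρ F = Module.finrank ℚ (TD.inv ρ F.val.fieldRange.fixingSubgroup) := by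
      rw [TD.inv_eq, IntermediateField.fieldRange_val]
      rfl
    rw [hr]
    ring
  · refine (key _ _ _ (bd_RR hx σ) (h2 x hx) (h'.twMean ρ hρ x hx σ hσ)).congr
      (fun v => rfl) ?_
    ring
  · simp only [neg_sq]
    exact h3 S hS1 hS2
  · obtain ⟨S, hS1, hS2, hS3, hS4⟩ := h4 F
    refine ⟨S, hS1, hS2, hS3, ?_⟩
    change -zF F = ∑ p ∈ S, -zA p * fixedDim p.2 F
    rw [hS4, ← Finset.sum_neg_distrib]
    exact Finset.sum_congr rfl fun p _ => by ring
  · obtain ⟨M, hM1, hM2, hM3⟩ := h5 c η hη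
    refine ⟨M, hM1, hM2, fun F _ hF => ?_⟩
    have h6 := hM3 F hF
    change |-zF F - -zF (F ⊓ M)| < η
    have e : -zF F - -zF (F ⊓ M) = -(zF F - zF (F ⊓ M)) := by ring
    rw [e, abs_neg]
    exact h6

end

end Pool.Agent.W353.SP
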