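import Pool.Agent.W353.SP.Mn

/-! Mean values of the characters on the algebraic part. -/

set_option autoImplicit false

namespace Pool.Agent.W353.SP

open Complex Filter Topology ComplexConjugate NumberField IsDedekindDomain
  Pool.Agent.W401.Cheb Pool.Agent.W540.BE Pool.Agent.W353.L1 Pool.Agent.W353.AT
open Pool.Agent.W353.NF (act act_apply act_trans fixn fixn_conj fixn_inv ker_act_open fixn_le
  avR_ker)
open Pool.Agent.W353.TD (ch Ph Ph_open GG GG_Ph GG_conj mean_GG)

section
variable {K : Type} [Field K] [NumberField K] {ι : Type} {l : Filter ι}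
  {E : ι → (HeightOneSpectrum (𝓞 K) → ℝ) → ℝ} {V : Type} [AddCommGroup V] [Module ℚ V]
  [FiniteDimensional ℚ V]

/-- the character times the number of fixed embeddings -/
theorem Mn.fixMean (h : Mn l E) (ρ : Representation ℚ (GK K) V)
    (hρ : ∃ U : Subgroup (GK K), IsOpen (U : Set (GK K)) ∧ ∀ u ∈ U, ρ u = 1)
    {F : Type} [Field F] [NumberField F] [Algebra K F]
    (i₀ : F →ₐ[K] AlgebraicClosure K)
    (σ : HeightOneSpectrum (𝓞 K) → GK K) (hσ : ∀ v, IsFrob v (σ v)) :
    Hs l E (fun v => ch ρ (σ v)⁻¹ * fixn K F (σ v))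
      (Module.finrank ℚ (TD.inv ρ i₀.fieldRange.fixingSubgroup)) := by
  classical
  have hopen := Ph_open ρ F hρ
  have hfin : Finite (GK K ⧸ (Ph ρ F).ker) := Subgroup.quotient_finite_of_isOpen _ hopen
  have hfin' : Finite (Ph ρ F).range :=
    Finite.of_equiv _ (QuotientGroup.quotientKerEquivRange (Ph ρ F)).toEquiv
  have hout : ∀ g : GK K, Ph ρ F (QuotientGroup.mk g : GK K ⧸ (Ph ρ F).ker).out = Ph ρ F g := by
    intro g
    have h1 : (QuotientGroup.mk (QuotientGroup.mk g : GK K ⧸ (Ph ρ F).ker).out :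
        GK K ⧸ (Ph ρ F).ker) = QuotientGroup.mk g := QuotientGroup.out_eq' _
    rw [QuotientGroup.eq, MonoidHom.mem_ker, map_mul, map_inv] at h1
    exact (inv_mul_eq_one.1 h1)
  set G : GK K ⧸ (Ph ρ F).ker → ℝ := fun q => GG (K := K) F (Ph ρ F q.out) with hG
  have hGm : ∀ g : GK K, G (QuotientGroup.mk g) = ch ρ g⁻¹ * fixn K F g := by
    intro g
    rw [hG]
    simp only
    rw [hout, GG_Ph]
  let _ : Fintype (GK K ⧸ (Ph ρ F).ker) := Fintype.ofFinite _
  refine ⟨⟨∑ q, |G q|, fun v => ?_⟩, ?_⟩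
  · change |ch ρ (σ v)⁻¹ * fixn K F (σ v)| ≤ _
    rw [← hGm]
    exact Finset.single_le_sum (f := fun q => |G q|) (fun q _ => abs_nonneg _) (Finset.mem_univ _)
  · have h1 := h.cheb (Ph ρ F).ker hopen (fun q => ((G q : ℝ) : ℂ)) (by
        intro a g
        congr 1
        obtain ⟨a, rfl⟩ := QuotientGroup.mk_surjective a
        obtain ⟨g, rfl⟩ := QuotientGroup.mk_surjective g
        rw [hG]
        simp only
        rw [← QuotientGroup.mk_inv, ← QuotientGroup.mk_mul, ← QuotientGroup.mk_mul, hout, hout,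
          map_mul, map_mul, map_inv, GG_conj]) _ (avC_ofReal _ G) σ hσ
    have h2 : avR (Ph ρ F).ker G =
        Module.finrank ℚ (TD.inv ρ i₀.fieldRange.fixingSubgroup) := by
      rw [hG, avR_ker (Ph ρ F) (fun h => GG (K := K) F h)]
      exact mean_GG ρ F i₀
    rw [h2] at h1
    refine h1.congr fun i => ?_
    congr 1
    funext v
    rw [Complex.ofReal_re, hGm]

/-- the character times another character -/
theorem Mn.twMean (h : Mn l E) (ρ : Representation ℚ (GK K) V)
    (hρ : ∃ U : Subgroup (GK K), IsOpen (U : Set (GK K)) ∧ ∀ u ∈ U, ρ u = 1)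
    (x : MRep (GK K)) (hx : IsArtin x.2)
    (σ : HeightOneSpectrum (𝓞 K) → GK K) (hσ : ∀ v, IsFrob v (σ v)) :
    Hs l E (fun v => ch ρ (σ v)⁻¹ * RR x.2 0 σ v) (twistRank ρ x.2) := by
  classical
  obtain ⟨U₁, hU₁n, hU₁, hx1⟩ := exists_common (κ := Unit) (n := fun _ => x.1)
    (fun _ => x.2) fun _ => hx
  obtain ⟨W, hW, hW1⟩ := hρ
  set U₂ := (MonoidHom.toHomUnits ρ).ker with hU₂
  have hU₂o : IsOpen (U₂ : Set (GK K)) := by
    refine Subgroup.isOpen_mono (H₁ := W) ?_ hW
    intro u hu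
    rw [hU₂, MonoidHom.mem_ker]
    exact Units.ext (hW1 u hu)
  set U := U₁ ⊓ U₂ with hUd
  have hU : IsOpen (U : Set (GK K)) := by
    rw [hUd, Subgroup.coe_inf]
    exact hU₁.inter hU₂o
  have hfin : Finite (GK K ⧸ U) := Subgroup.quotient_finite_of_isOpen U hU
  let _ : Fintype (GK K ⧸ U) := Fintype.ofFinite _
  have htriv : ∀ u ∈ U, ((extendScalars ρ).tprod x.2) u = 1 := by
    intro u hu
    have h1 : x.2 u = 1 := hx1 () u hu.1
    have h2 : ρ u = 1 := congrArg Units.val ((MonoidHom.mem_ker).1 hu.2)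
    have h3 : extendScalars ρ u = 1 := by
      change (ρ u).baseChange ℂ = 1
      rw [h2]
      exact LinearMap.baseChange_one (R := ℚ) (A := ℂ) (M := V)
    rw [Representation.tprod_apply, h1, h3]
    exact TensorProduct.map_one
  set Q := qrep U ((extendScalars ρ).tprod x.2) htriv with hQ
  have hchar : ∀ g : GK K, ((extendScalars ρ).tprod x.2).character g =
      ((ch ρ g : ℝ) : ℂ) * x.2.character g := by
    intro g
    rw [Representation.char_tensor, Pi.mul_apply, extendScalars_char]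
  have hinv : Module.finrank ℂ Q.invariants = twistRank ρ x.2 := by
    unfold twistRank
    have e : Q.invariants = ((extendScalars ρ).tprod x.2).invariants := by
      ext y
      constructor
      · intro h g
        exact h (QuotientGroup.mk g)
      · intro h g
        obtain ⟨g, rfl⟩ := QuotientGroup.mk_surjective g
        exact h g
    rw [e]
  have hmean : avC U (fun q => Q.character q⁻¹) = ((twistRank ρ x.2 : ℝ) : ℂ) := by
    unfold avC
    have e5 : ∑ q : GK K ⧸ U, Q.character q⁻¹ = ∑ q : GK K ⧸ U, Q.character q :=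
      Equiv.sum_comp (Equiv.inv (GK K ⧸ U)) (fun q => Q.character q)
    rw [finsum_eq_sum_of_fintype, e5, sumC_char, Nat.card_eq_fintype_card, hinv]
    have h0 : (Fintype.card (GK K ⧸ U) : ℂ) ≠ 0 := by exact_mod_cast Fintype.card_ne_zero
    rw [inv_mul_cancel_left₀ h0]
    push_cast
    rfl
  have h1 := h.cheb U hU (fun q => Q.character q⁻¹) (fun a g => by
    have h2 : (g * a * g⁻¹)⁻¹ = g * a⁻¹ * g⁻¹ := by group
    rw [h2, Representation.char_conj]) _ hmean σ hσ
  have he : ∀ v, (Q.character (QuotientGroup.mk (σ v))⁻¹).re =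
      ch ρ (σ v)⁻¹ * RR x.2 0 σ v := by
    intro v
    have e1 : Q.character (QuotientGroup.mk (σ v))⁻¹ =
        ((extendScalars ρ).tprod x.2).character (σ v)⁻¹ := rfl
    rw [e1, hchar, Complex.re_ofReal_mul]
    unfold RR zz
    rw [Complex.ofReal_zero, zero_mul, neg_zero, Complex.cpow_zero, mul_one]
  refine ⟨⟨∑ q : GK K ⧸ U, ‖Q.character q⁻¹‖, fun v => ?_⟩, ?_⟩
  · change |ch ρ (σ v)⁻¹ * RR x.2 0 σ v| ≤ _
    rw [← he]
    refine (Complex.abs_re_le_norm _).trans ?_
    exact Finset.single_le_sum (f := fun q : GK K ⧸ U => ‖Q.character q⁻¹‖)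
      (fun q _ => norm_nonneg _) (Finset.mem_univ (QuotientGroup.mk (σ v)))
  · refine h1.congr fun i => ?_
    congr 1
    funext v
    exact he v

end

end Pool.Agent.W353.SP
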